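import Mathlib

/-! # Definitions for MP_542b67_gt (fibres of the relation `R̃_K` for compacta on surfaces) -/

open Set Filter Topology

namespace SurfFib

variable {X : Type*} [TopologicalSpace X]

/-- `C` is a (connected) component of the subspace `F` of `X`. -/
def IsComp (F C : Set X) : Prop := ∃ z ∈ F, C = connectedComponentIn F z

/-- The components of `X \ (A ∪ B)` that meet both `∂A` and `∂B`. -/
def crossing (A B : Set X) : Set (Set X) :=
  {C | IsComp (A ∪ B)ᶜ C ∧ (C ∩ frontier A).Nonempty ∧ (C ∩ frontier B).Nonempty}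

/-- The relation `R̃` on the compact space `X` (the compactum `K` with its own topology):
`x = y`, or there are decreasing sequences of neighbourhoods of `x` and of `y`, shrinking to `x` and
to `y`, such that for every `n` infinitely many components of `X \ (U n ∪ V n)` meet both `∂(U n)`
and `∂(V n)`. -/
def RTilde (x y : X) : Prop :=
  x = y ∨ ∃ U V : ℕ → Set X, Antitone U ∧ Antitone V ∧ (∀ n, U n ∈ 𝓝 x) ∧ (∀ n, V n ∈ 𝓝 y) ∧
    (⋂ n, closure (U n)) = {x} ∧ (⋂ n, closure (V n)) = {y} ∧ ∀ n, (crossing (U n) (V n)).Infinite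

end SurfFib
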