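import Pool.Agent.SurfFib.Dipole

/-! # Local dipoles on the surface -/

open Set Filter Topology Metric

namespace SurfFib

variable {S : Type*} [TopologicalSpace S]

open Classical in
/-- the dipole in the disc `D` -/
noncomputable def dipS (D : Disc S) (p q : ℂ) (x y : S) : ZMod 2 :=
  if x ∈ D.ball 2 ∧ y ∈ D.ball 2 then dip p q (D.φ x) (D.φ y) else 0

theorem dipS_near (D : Disc S) (p q : ℂ) {z : S} (hz : z ∈ D.ball 2) :
    AgreeNear (dipS D p q) (fun x y => dip p q (D.φ x) (D.φ y)) z := by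
  refine ⟨D.ball 2, (D.isOpen_ball le_rfl).mem_nhds hz, fun x hx y hy => ?_⟩
  rw [dipS, if_pos ⟨hx, hy⟩]

theorem dipS_zero_out [T2Space S] (D : Disc S) {p q : ℂ} (hp : ‖p‖ ≤ 1) (hq : ‖q‖ ≤ 1) {z : S}
    (hz : z ∉ D.ball 2) : ZeroNear (dipS D p q) z := by
  refine ⟨(D.cball (3 / 2))ᶜ, ?_, ?_⟩
  · apply (D.isClosed_cball (by norm_num)).isOpen_compl.mem_nhds
    intro h
    exact hz (D.cball_subset_ball (by norm_num) h)
  · intro x hx y hy
    rw [dipS]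
    split_ifs with h
    · rw [dip, kap, if_neg]
      · rfl
      · rintro ⟨h1, -⟩
        have h2 : 3 / 2 ≤ ‖D.φ x‖ := by
          by_contra hn
          apply hx
          rw [D.mem_cball_iff (by norm_num)]
          exact ⟨((D.mem_ball_iff le_rfl).1 h.1).1, (not_le.mp hn).le⟩
        exact absurd h1 (not_lt.mpr (re_quot_nonneg hp hq h2))
    · rfl

theorem dipS_coc [T2Space S] (D : Disc S) {p q : ℂ} (hp : ‖p‖ ≤ 1) (hq : ‖q‖ ≤ 1) {z : S}
    (h1 : z ≠ D.φ.symm p) (h2 : z ≠ D.φ.symm q) : CocNear (dipS D p q) z := by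
  by_cases hz : z ∈ D.ball 2
  · refine CocNear.congr ?_ (dipS_near D p q hz).symm
    have hs := ((D.mem_ball_iff le_rfl).1 hz).1
    refine CocNear.comp (c := dip p q) (D.continuousAt hz) (dip_coc ?_ ?_)
    · rintro rfl
      exact h1 (D.φ.left_inv hs).symm
    · rintro rfl
      exact h2 (D.φ.left_inv hs).symm
  · exact (dipS_zero_out D hp hq hz).coc

/-- the segment in the disc -/
def segS (D : Disc S) (p q : ℂ) : Set S := D.φ.symm '' segment ℝ p q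

theorem dipS_zero [T2Space S] (D : Disc S) {p q : ℂ} (hp : ‖p‖ ≤ 1) (hq : ‖q‖ ≤ 1) {z : S}
    (h : z ∉ segS D p q) : ZeroNear (dipS D p q) z := by
  by_cases hz : z ∈ D.ball 2
  · have hs := ((D.mem_ball_iff le_rfl).1 hz).1
    have h1 := dipS_near D p q hz
    refine h1.trans ?_
    refine ZeroNear.comp (c := dip p q) (D.continuousAt hz) (dip_zero ?_)
    intro h2
    exact h ⟨_, h2, D.φ.left_inv hs⟩
  · exact dipS_zero_out D hp hq hz

theorem segS_subset (D : Disc S) {p q : ℂ} {r : ℝ} (hp : ‖p‖ ≤ r) (hq : ‖q‖ ≤ r) :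
    segS D p q ⊆ D.cball r := by
  apply image_mono
  exact (convex_closedBall (0 : ℂ) r).segment_subset (by simpa using hp) (by simpa using hq)

theorem norm_circ_le (p : ℂ) {ρ : ℝ} (hρ : 0 ≤ ρ) (t : ℝ) : ‖circ p ρ t‖ ≤ ‖p‖ + ρ := by
  have h1 : circ p ρ t = p + (circ p ρ t - p) := by ring
  calc ‖circ p ρ t‖ = ‖p + (circ p ρ t - p)‖ := by rw [← h1]
    _ ≤ ‖p‖ + ‖circ p ρ t - p‖ := norm_add_le _ _
    _ = ‖p‖ + ρ := by rw [norm_circ_sub p hρ]

/-- value on points of the disc -/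
theorem dipS_symm (D : Disc S) (p q : ℂ) {z z' : ℂ} (hz : ‖z‖ < 2) (hz' : ‖z'‖ < 2) :
    dipS D p q (D.φ.symm z) (D.φ.symm z') = dip p q z z' := by
  rw [dipS, if_pos ⟨D.symm_mem_ball hz, D.symm_mem_ball hz'⟩, D.right_inv hz.le, D.right_inv hz'.le]

theorem circ_pi (p : ℂ) (ρ θ : ℝ) : circ p ρ (θ - Real.pi) = circ p ρ (θ + Real.pi) := by
  unfold circ
  congr 2
  push_cast
  rw [sub_mul, add_mul, Complex.exp_add, Complex.exp_sub, Complex.exp_pi_mul_I, div_neg, div_one,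
    mul_neg_one]

/-- criterion for oddness -/
theorem odd_of_circ (D : Disc S) {p : ℂ} (hp : ‖p‖ < 2) (c : S → S → ZMod 2) (e : ℝ → ZMod 2)
    (θ r : ℝ) (hr : 0 < r) (hne : e (θ - Real.pi) ≠ e (θ + Real.pi))
    (h : ∀ ρ, 0 < ρ → ρ < r → ‖p‖ + ρ < 2 → ∀ t ∈ Icc (θ - Real.pi) (θ + Real.pi),
      ∃ V ∈ 𝓝 t, ∀ s ∈ V, ∀ s' ∈ V,
        c (D.φ.symm (circ p ρ s)) (D.φ.symm (circ p ρ s')) = e s + e s') :
    Odd c (D.φ.symm p) := by
  intro O hO
  have h1 : D.φ.symm ⁻¹' O ∈ 𝓝 p := D.continuousAt_symm hp.le hO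
  obtain ⟨ε, hε, hsub⟩ := Metric.mem_nhds_iff.1 h1
  obtain ⟨ρ, hρ0, hρr, hρε, hρ2⟩ : ∃ ρ : ℝ, 0 < ρ ∧ ρ < r ∧ ρ < ε ∧ ‖p‖ + ρ < 2 := by
    refine ⟨min (min (r / 2) (ε / 2)) ((2 - ‖p‖) / 2), ?_, ?_, ?_, ?_⟩
    · have : 0 < 2 - ‖p‖ := by linarith
      positivity
    · have h2 : min (min (r / 2) (ε / 2)) ((2 - ‖p‖) / 2) ≤ r / 2 :=
        (min_le_left _ _).trans (min_le_left _ _)
      linarith
    · have h2 : min (min (r / 2) (ε / 2)) ((2 - ‖p‖) / 2) ≤ ε / 2 :=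
        (min_le_left _ _).trans (min_le_right _ _)
      linarith
    · have h2 : min (min (r / 2) (ε / 2)) ((2 - ‖p‖) / 2) ≤ (2 - ‖p‖) / 2 := min_le_right _ _
      linarith
  have hlt : ∀ t, ‖circ p ρ t‖ < 2 := fun t => (norm_circ_le p hρ0.le t).trans_lt hρ2
  have hcont : ContinuousOn (fun t => D.φ.symm (circ p ρ t)) (Icc (θ - Real.pi) (θ + Real.pi)) := by
    intro t _
    apply ContinuousAt.continuousWithinAt
    exact ContinuousAt.comp (f := fun t => circ p ρ t) (D.continuousAt_symm (hlt t).le)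
      (continuous_circ p ρ).continuousAt
  refine ⟨(fun t => D.φ.symm (circ p ρ t)) '' Icc (θ - Real.pi) (θ + Real.pi), ?_, ?_, ?_, ?_⟩
  · rintro _ ⟨t, _, rfl⟩
    apply hsub
    rw [Metric.mem_ball, dist_eq_norm, norm_circ_sub p hρ0.le]
    exact hρε
  · exact isCompact_Icc.image_of_continuousOn hcont
  · rintro ⟨t, _, ht⟩
    have h2 : circ p ρ t = p := by
      have := congrArg D.φ ht
      simp only at this
      rwa [D.right_inv (hlt t).le, D.right_inv hp.le] at this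
    have h3 := norm_circ_sub p hρ0.le t
    rw [h2, sub_self, norm_zero] at h3
    exact hρ0.ne h3
  · rintro ⟨σ, hσ⟩
    have hpi := Real.pi_pos
    have key := path_const (isPreconnected_Icc (a := θ - Real.pi) (b := θ + Real.pi))
      (fun t => D.φ.symm (circ p ρ t)) hcont c e (fun t ht => by
        obtain ⟨V, hV, hV'⟩ := h ρ hρ0 hρr hρ2 t ht
        exact ⟨V, mem_nhdsWithin_of_mem_nhds hV, hV'⟩) σ
      (fun t ht => hσ _ ⟨t, ht, rfl⟩) (θ - Real.pi) ⟨le_rfl, by linarith⟩ (θ + Real.pi)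
      ⟨by linarith, le_rfl⟩
    simp only [circ_pi] at key
    exact hne (add_left_cancel key)

/-- polar form -/
theorem exists_polar {p q : ℂ} (h : p ≠ q) : ∃ r θ : ℝ, 0 < r ∧ q = circ p r θ := by
  refine ⟨‖q - p‖, Complex.arg (q - p), norm_pos_iff.mpr (sub_ne_zero.mpr h.symm), ?_⟩
  rw [circ, Complex.norm_mul_exp_arg_mul_I]
  ring

theorem dipS_odd_left (D : Disc S) {p q : ℂ} (hp : ‖p‖ < 2) (hpq : p ≠ q) :
    Odd (dipS D p q) (D.φ.symm p) := by
  obtain ⟨r, θ, hr, rfl⟩ := exists_polar hpq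
  have hpi := Real.pi_pos
  refine odd_of_circ D hp _ (stepL θ) θ r hr ?_ ?_
  · rw [stepL, stepL, if_pos (by linarith), if_neg (by linarith)]
    exact one_ne_zero
  · intro ρ hρ0 hρr hρ2 t ht
    obtain ⟨V, hV, hV'⟩ := dip_circ (p := p) (θ := θ) hρ0 hρr (t := t) (by
      rw [abs_lt]; constructor <;> [linarith [ht.1]; linarith [ht.2]])
    refine ⟨V, hV, fun s hs s' hs' => ?_⟩
    rw [dipS_symm D _ _ ((norm_circ_le p hρ0.le _).trans_lt hρ2)
      ((norm_circ_le p hρ0.le _).trans_lt hρ2), hV' s hs s' hs']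

theorem dipS_odd_right (D : Disc S) {p q : ℂ} (hq : ‖q‖ < 2) (hpq : p ≠ q) :
    Odd (dipS D p q) (D.φ.symm q) := by
  obtain ⟨r, θ, hr, rfl⟩ := exists_polar hpq.symm
  have hpi := Real.pi_pos
  refine odd_of_circ D hq _ (stepR θ) θ r hr ?_ ?_
  · rw [stepR, stepR, if_neg (by linarith), if_pos (by linarith)]
    exact zero_ne_one
  · intro ρ hρ0 hρr hρ2 t ht
    obtain ⟨V, hV, hV'⟩ := dip_circ' (q := q) (θ := θ) hρ0 hρr (t := t) (by
      rw [abs_lt]; constructor <;> [linarith [ht.1]; linarith [ht.2]])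
    refine ⟨V, hV, fun s hs s' hs' => ?_⟩
    rw [dipS_symm D _ _ ((norm_circ_le q hρ0.le _).trans_lt hρ2)
      ((norm_circ_le q hρ0.le _).trans_lt hρ2), hV' s hs s' hs']

end SurfFib
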