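import Pool.Agent.SurfFib.L1
import Pool.Agent.SurfFib.DipS

/-! # Classes on an annulus, and patching -/

open Set Filter Topology Metric

namespace SurfFib

/-- polar coordinates (logarithmic) -/
noncomputable def pol (x : ℝ × ℝ) : ℂ := Complex.exp (x.1 + x.2 * Complex.I)

/-- the rectangle over the annulus -/
def rect (s r : ℝ) : Set (ℝ × ℝ) :=
  Icc (Real.log s) (Real.log r) ×ˢ Icc (-Real.pi - 1) (Real.pi + 1)

theorem continuous_pol : Continuous pol := by
  unfold pol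
  fun_prop

theorem norm_pol (x : ℝ × ℝ) : ‖pol x‖ = Real.exp x.1 := by
  rw [pol, Complex.norm_exp]
  simp

theorem pol_add (x : ℝ × ℝ) : pol (x.1, x.2 + 2 * Real.pi) = pol x := by
  rw [pol, pol]
  push_cast
  rw [add_mul, ← add_assoc, Complex.exp_add _ (2 * Real.pi * Complex.I), Complex.exp_two_pi_mul_I,
    mul_one]

theorem convex_rect (s r : ℝ) : Convex ℝ (rect s r) := (convex_Icc _ _).prod (convex_Icc _ _)

theorem isCompact_rect (s r : ℝ) : IsCompact (rect s r) := isCompact_Icc.prod isCompact_Icc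

theorem norm_mem_of_rect {s r : ℝ} (hs : 0 < s) (hr : 0 < r) {x : ℝ × ℝ} (h : x ∈ rect s r) :
    s ≤ ‖pol x‖ ∧ ‖pol x‖ ≤ r := by
  rw [norm_pol]
  obtain ⟨⟨h1, h2⟩, -⟩ := h
  exact ⟨by rwa [← Real.log_le_iff_le_exp hs], by
    rw [← Real.le_log_iff_exp_le hr]
    exact h2⟩

/-- uniform triviality upstairs -/
theorem ann_up (C : ℂ → ℂ → ZMod 2) {s r : ℝ} (hs : 0 < s) (hr : 0 < r)
    (h : ∀ z, s ≤ ‖z‖ → ‖z‖ ≤ r → CocNear C z) :
    ∃ σ : ℝ × ℝ → ZMod 2, ∃ ε > 0, ∀ x ∈ rect s r, ∀ y ∈ rect s r, dist x y < ε →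
      C (pol x) (pol y) = σ x + σ y := by
  apply convex_trivial (isCompact_rect s r) (convex_rect s r) (fun x y => C (pol x) (pol y))
  intro z hz
  obtain ⟨h1, h2⟩ := norm_mem_of_rect hs hr hz
  obtain ⟨σ, V, hV, hV'⟩ := h _ h1 h2
  exact ⟨pol ⁻¹' V, continuous_pol.continuousAt hV, σ ∘ pol, fun x hx y hy =>
    hV' _ hx.1 _ hy.1⟩

/-- the jump is constant -/
theorem ann_jump (C : ℂ → ℂ → ZMod 2) {s r : ℝ} (σ : ℝ × ℝ → ZMod 2) (ε : ℝ) (hε : 0 < ε)
    (h : ∀ x ∈ rect s r, ∀ y ∈ rect s r, dist x y < ε → C (pol x) (pol y) = σ x + σ y) :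
    ∃ μ : ZMod 2, ∀ u ∈ Icc (Real.log s) (Real.log r), ∀ t ∈ Icc (-Real.pi - 1) (-Real.pi + 1),
      σ (u, t) + σ (u, t + 2 * Real.pi) = μ := by
  have hpi := Real.pi_gt_three
  set R := Icc (Real.log s) (Real.log r) ×ˢ Icc (-Real.pi - 1) (-Real.pi + 1) with hR
  have hRc : IsPreconnected R := ((convex_Icc _ _).prod (convex_Icc _ _)).isPreconnected
  have key : ∀ a ∈ R, ∀ b ∈ R, σ a + σ (a.1, a.2 + 2 * Real.pi) = σ b + σ (b.1, b.2 + 2 * Real.pi) := by
    intro a ha b hb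
    refine hRc.induction₂' (fun a b =>
      σ a + σ (a.1, a.2 + 2 * Real.pi) = σ b + σ (b.1, b.2 + 2 * Real.pi)) ?_ ?_ ha hb
    · intro a ha
      have h1 : ∀ᶠ b in 𝓝[R] a, dist a b < ε := by
        have : ∀ᶠ b in 𝓝 a, dist b a < ε := Metric.ball_mem_nhds a hε
        filter_upwards [mem_nhdsWithin_of_mem_nhds this] with b hb
        rw [dist_comm]
        exact hb
      filter_upwards [h1, self_mem_nhdsWithin] with b hb hbR
      have a1 : a ∈ rect s r := ⟨ha.1, ha.2.1, by linarith [ha.2.2]⟩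
      have b1 : b ∈ rect s r := ⟨hbR.1, hbR.2.1, by linarith [hbR.2.2]⟩
      have a2 : (a.1, a.2 + 2 * Real.pi) ∈ rect s r :=
        ⟨ha.1, by simp only; linarith [ha.2.1], by simp only; linarith [ha.2.2]⟩
      have b2 : (b.1, b.2 + 2 * Real.pi) ∈ rect s r :=
        ⟨hbR.1, by simp only; linarith [hbR.2.1], by simp only; linarith [hbR.2.2]⟩
      have e1 := h a a1 b b1 hb
      have e2 := h _ a2 _ b2 (by
        rw [Prod.dist_eq]
        simp only [dist_add_right]
        rw [Prod.dist_eq] at hb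
        exact hb)
      rw [pol_add, pol_add, e1] at e2
      have : σ a + σ (a.1, a.2 + 2 * Real.pi) = σ b + σ (b.1, b.2 + 2 * Real.pi) := by
        have h3 : σ a + σ b + (σ b + σ (a.1, a.2 + 2 * Real.pi)) =
          σ (a.1, a.2 + 2 * Real.pi) + σ (b.1, b.2 + 2 * Real.pi) +
            (σ b + σ (a.1, a.2 + 2 * Real.pi)) := by rw [e2]
        have h4 : σ a + σ b + (σ b + σ (a.1, a.2 + 2 * Real.pi)) =
          σ a + σ (a.1, a.2 + 2 * Real.pi) + (σ b + σ b) := by ring
        have h5 : σ (a.1, a.2 + 2 * Real.pi) + σ (b.1, b.2 + 2 * Real.pi) +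
            (σ b + σ (a.1, a.2 + 2 * Real.pi)) = σ b + σ (b.1, b.2 + 2 * Real.pi) +
            (σ (a.1, a.2 + 2 * Real.pi) + σ (a.1, a.2 + 2 * Real.pi)) := by ring
        rw [h4, h5, zmod2_add_self, zmod2_add_self, add_zero, add_zero] at h3
        exact h3
      exact ⟨this, this.symm⟩
    · intro a b c' _ _ _ h1 h2
      exact h1.trans h2
  by_cases hne : R.Nonempty
  · obtain ⟨a, ha⟩ := hne
    refine ⟨σ a + σ (a.1, a.2 + 2 * Real.pi), fun u hu t ht => ?_⟩
    exact key (u, t) ⟨hu, ht⟩ a ha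
  · exact ⟨0, fun u hu t ht => absurd ⟨(u, t), ⟨hu, ht⟩⟩ hne⟩

/-- descent when the jump vanishes -/
theorem ann_down (C : ℂ → ℂ → ZMod 2) {s' r' s r : ℝ} (h0 : 0 < s') (h1 : s' < s) (h2 : r < r')
    (σ : ℝ × ℝ → ZMod 2) (ε : ℝ) (hε : 0 < ε)
    (h : ∀ x ∈ rect s' r', ∀ y ∈ rect s' r', dist x y < ε → C (pol x) (pol y) = σ x + σ y)
    (hm : ∀ u ∈ Icc (Real.log s') (Real.log r'), ∀ t ∈ Icc (-Real.pi - 1) (-Real.pi + 1),
      σ (u, t) + σ (u, t + 2 * Real.pi) = 0) :
    ∃ τ : ℂ → ZMod 2, ∀ z, s ≤ ‖z‖ → ‖z‖ ≤ r → AgreeNear C (cob τ) z := by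
  have hpi := Real.pi_gt_three
  have hm' : ∀ u ∈ Icc (Real.log s') (Real.log r'), ∀ t ∈ Icc (-Real.pi - 1) (-Real.pi + 1),
      σ (u, t) = σ (u, t + 2 * Real.pi) := by
    intro u hu t ht
    have e1 := hm u hu t ht
    have e2 := zmod2_add_self (σ (u, t + 2 * Real.pi))
    exact add_right_cancel (e1.trans e2.symm)
  refine ⟨fun z => σ (Real.log ‖z‖, Complex.arg z), fun z hz1 hz2 => ?_⟩
  have hz0 : z ≠ 0 := by
    rintro rfl
    rw [norm_zero] at hz1
    linarith
  have hznorm : 0 < ‖z‖ := norm_pos_iff.mpr hz0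
  let L : ℂ → ℝ × ℝ := fun x => (Real.log ‖x‖, Complex.arg z + Complex.arg (x / z))
  have hL : ContinuousAt L z := by
    apply ContinuousAt.prodMk
    · exact continuousAt_id.norm.log hznorm.ne'
    · apply continuousAt_const.add
      apply ContinuousAt.comp (g := Complex.arg) (f := fun x => x / z)
      · apply Complex.continuousAt_arg
        rw [div_self hz0]
        exact Complex.one_mem_slitPlane
      · exact continuousAt_id.div_const z
  have hA : ContinuousAt (fun x => |Complex.arg (x / z)|) z := by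
    apply ContinuousAt.abs
    apply ContinuousAt.comp (g := Complex.arg) (f := fun x => x / z)
    · apply Complex.continuousAt_arg
      rw [div_self hz0]
      exact Complex.one_mem_slitPlane
    · exact continuousAt_id.div_const z
  have e1 : ∀ᶠ x in 𝓝 z, |Complex.arg (x / z)| < 1 := by
    apply hA.eventually_lt_const
    simp only [div_self hz0, Complex.arg_one, abs_zero]
    norm_num
  have e2 : ∀ᶠ x in 𝓝 z, s' < ‖x‖ :=
    continuous_norm.continuousAt.eventually_const_lt (by linarith)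
  have e3 : ∀ᶠ x in 𝓝 z, ‖x‖ < r' :=
    continuous_norm.continuousAt.eventually_lt_const (by linarith)
  have e4 : ∀ᶠ x in 𝓝 z, dist (L x) (L z) < ε / 2 := hL (Metric.ball_mem_nhds _ (by positivity))
  refine ⟨_, (e1.and (e2.and (e3.and e4))), ?_⟩
  have key : ∀ x, |Complex.arg (x / z)| < 1 → s' < ‖x‖ → ‖x‖ < r' →
      L x ∈ rect s' r' ∧ pol (L x) = x ∧ σ (L x) = σ (Real.log ‖x‖, Complex.arg x) := by
    intro x hx1 hx2 hx3
    have hx0 : 0 < ‖x‖ := h0.trans hx2
    have hxne : x ≠ 0 := norm_pos_iff.mp hx0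
    rw [abs_lt] at hx1
    have hlog : Real.log ‖x‖ ∈ Icc (Real.log s') (Real.log r') :=
      ⟨Real.log_le_log h0 hx2.le, Real.log_le_log hx0 hx3.le⟩
    have ha1 := Complex.neg_pi_lt_arg z
    have ha2 := Complex.arg_le_pi z
    have hb1 := Complex.neg_pi_lt_arg x
    have hb2 := Complex.arg_le_pi x
    have hpx : pol (L x) = x := by
      simp only [L, pol]
      push_cast
      rw [add_mul, Complex.exp_add, Complex.exp_add, ← Complex.ofReal_exp, Real.exp_log hx0]
      have f1 := Complex.norm_mul_exp_arg_mul_I z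
      have f2 := Complex.norm_mul_exp_arg_mul_I (x / z)
      have f3 : ((‖z‖ : ℝ) : ℂ) ≠ 0 := by exact_mod_cast hznorm.ne'
      rw [norm_div] at f2
      push_cast at f2
      have f4 : (‖x‖ : ℂ) * (Complex.exp (Complex.arg z * Complex.I) *
          Complex.exp (Complex.arg (x / z) * Complex.I)) =
          (‖z‖ * Complex.exp (Complex.arg z * Complex.I)) *
          ((‖x‖ / ‖z‖ : ℂ) * Complex.exp (Complex.arg (x / z) * Complex.I)) := by
        field_simp
      rw [f4, f1, f2]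
      field_simp
    refine ⟨⟨hlog, by simp only [L]; linarith, by simp only [L]; linarith⟩, hpx, ?_⟩
    -- compare the two arguments
    have g1 : Complex.exp ((Complex.arg z + Complex.arg (x / z) : ℝ) * Complex.I) =
        Complex.exp (Complex.arg x * Complex.I) := by
      have f5 : (‖x‖ : ℂ) ≠ 0 := by exact_mod_cast hx0.ne'
      have f6 := Complex.norm_mul_exp_arg_mul_I x
      have f7 : (‖x‖ : ℂ) * Complex.exp ((Complex.arg z + Complex.arg (x / z) : ℝ) * Complex.I) = x := by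
        have := hpx
        simp only [L, pol] at this
        rw [Complex.exp_add, ← Complex.ofReal_exp, Real.exp_log hx0] at this
        exact this
      exact mul_left_cancel₀ f5 (f7.trans f6.symm)
    rw [Complex.exp_eq_exp_iff_exists_int] at g1
    obtain ⟨n, hn⟩ := g1
    have hn' : Complex.arg z + Complex.arg (x / z) = Complex.arg x + n * (2 * Real.pi) := by
      have h3 := congrArg Complex.im hn
      simpa using h3
    have hn1 : n = 0 ∨ n = 1 ∨ n = -1 := by
      have a1 : (n : ℝ) < 2 := by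
        by_contra hcon
        have := not_lt.mp hcon
        nlinarith
      have a2 : (-2 : ℝ) < n := by
        by_contra hcon
        have := not_lt.mp hcon
        nlinarith
      have a1' : n < 2 := by exact_mod_cast a1
      have a2' : -2 < n := by exact_mod_cast a2
      omega
    simp only [L]
    rcases hn1 with rfl | rfl | rfl
    · rw [hn']
      simp
    · rw [hn']
      push_cast
      rw [one_mul]
      exact (hm' _ hlog _ ⟨by linarith, by push_cast at hn'; linarith⟩).symm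
    · have h4 : Complex.arg x = Complex.arg z + Complex.arg (x / z) + 2 * Real.pi := by
        rw [hn']
        push_cast
        ring
      rw [h4]
      exact hm' _ hlog _ ⟨by linarith, by linarith⟩
  rintro x ⟨hx1, hx2, hx3, hx4⟩ y ⟨hy1, hy2, hy3, hy4⟩
  obtain ⟨kx1, kx2, kx3⟩ := key x hx1 hx2 hx3
  obtain ⟨ky1, ky2, ky3⟩ := key y hy1 hy2 hy3
  have hd : dist (L x) (L y) < ε := by
    have := dist_triangle_right (L x) (L y) (L z)
    linarith
  have := h _ kx1 _ ky1 hd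
  rw [kx2, ky2, kx3, ky3] at this
  exact this

/-- two nontrivial classes on the annulus agree -/
theorem ann_two (C C' : ℂ → ℂ → ZMod 2) {s' r' s r : ℝ} (h0 : 0 < s') (h1 : s' < s)
    (h2 : r < r') (hsr : s ≤ r)
    (hC : ∀ z, s' ≤ ‖z‖ → ‖z‖ ≤ r' → CocNear C z) (hC' : ∀ z, s' ≤ ‖z‖ → ‖z‖ ≤ r' → CocNear C' z)
    (hn : ¬ ∃ τ : ℂ → ZMod 2, ∀ z, s ≤ ‖z‖ → ‖z‖ ≤ r → AgreeNear C (cob τ) z)
    (hn' : ¬ ∃ τ : ℂ → ZMod 2, ∀ z, s ≤ ‖z‖ → ‖z‖ ≤ r → AgreeNear C' (cob τ) z) :
    ∃ τ : ℂ → ZMod 2, ∀ z, s ≤ ‖z‖ → ‖z‖ ≤ r → AgreeNear (C + C') (cob τ) z := by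
  have hr' : 0 < r' := by linarith
  obtain ⟨σ, ε, hε, hσ⟩ := ann_up C h0 hr' hC
  obtain ⟨σ', ε', hε', hσ'⟩ := ann_up C' h0 hr' hC'
  obtain ⟨μ, hμ⟩ := ann_jump C σ ε hε hσ
  obtain ⟨μ', hμ'⟩ := ann_jump C' σ' ε' hε' hσ'
  have h2c : ∀ a : ZMod 2, a = 0 ∨ a = 1 := by decide
  have m1 : μ = 1 := by
    rcases h2c μ with h | h
    · exact absurd (ann_down C h0 h1 h2 σ ε hε hσ (by rw [h] at hμ; exact hμ)) hn
    · exact h
  have m1' : μ' = 1 := by
    rcases h2c μ' with h | h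
    · exact absurd (ann_down C' h0 h1 h2 σ' ε' hε' hσ' (by rw [h] at hμ'; exact hμ')) hn'
    · exact h
  subst m1
  subst m1'
  apply ann_down (C + C') h0 h1 h2 (σ + σ') (min ε ε') (lt_min hε hε')
  · intro x hx y hy hxy
    simp only [Pi.add_apply]
    rw [hσ x hx y hy (hxy.trans_le (min_le_left _ _)),
      hσ' x hx y hy (hxy.trans_le (min_le_right _ _))]
    ring
  · intro u hu t ht
    simp only [Pi.add_apply]
    have a1 := hμ u hu t ht
    have a2 := hμ' u hu t ht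
    have : σ (u, t) + σ' (u, t) + (σ (u, t + 2 * Real.pi) + σ' (u, t + 2 * Real.pi)) =
      (σ (u, t) + σ (u, t + 2 * Real.pi)) + (σ' (u, t) + σ' (u, t + 2 * Real.pi)) := by ring
    rw [this, a1, a2]
    decide

end SurfFib
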