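import Pool.Agent.SurfFib.Patch

/-! # Finitely many classes -/

open Set Filter Topology Metric

namespace SurfFib

variable {S : Type*} [TopologicalSpace S]

theorem disc_trivial (D : Disc S) (c : S → S → ZMod 2) (h : ∀ z ∈ D.cball 2, CocNear c z) :
    ∃ σ : S → ZMod 2, ∀ x ∈ D.ball 2, AgreeNear c (cob σ) x := by
  obtain ⟨τ, ε, hε, hτ⟩ := convex_trivial (isCompact_closedBall (0 : ℂ) 2)
    (convex_closedBall (0 : ℂ) 2) (fun z z' => c (D.φ.symm z) (D.φ.symm z')) (by
      intro z hz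
      have hz' : ‖z‖ ≤ 2 := by simpa using hz
      obtain ⟨σ, V, hV, hV'⟩ := h _ (D.symm_mem_cball hz')
      exact ⟨D.φ.symm ⁻¹' V, D.continuousAt_symm hz' hV, σ ∘ D.φ.symm, fun x hx y hy =>
        hV' _ hx.1 _ hy.1⟩)
  refine ⟨τ ∘ D.φ, fun x hx => ?_⟩
  refine ⟨D.ball 2 ∩ D.φ ⁻¹' Metric.ball (D.φ x) (ε / 2), inter_mem
    ((D.isOpen_ball le_rfl).mem_nhds hx)
    (D.continuousAt hx (Metric.ball_mem_nhds _ (by positivity))), ?_⟩
  rintro a ⟨ha1, ha2⟩ b ⟨hb1, hb2⟩
  obtain ⟨ha3, ha4⟩ := (D.mem_ball_iff le_rfl).1 ha1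
  obtain ⟨hb3, hb4⟩ := (D.mem_ball_iff le_rfl).1 hb1
  have hd : dist (D.φ a) (D.φ b) < ε := by
    have h1 : dist (D.φ a) (D.φ x) < ε / 2 := ha2
    have h2 : dist (D.φ b) (D.φ x) < ε / 2 := hb2
    have := dist_triangle_right (D.φ a) (D.φ b) (D.φ x)
    linarith
  have := hτ (D.φ a) (by simpa using ha4.le) (D.φ b) (by simpa using hb4.le) hd
  rw [D.φ.left_inv ha3, D.φ.left_inv hb3] at this
  exact this

open Classical in
/-- a chosen primitive on the disc -/
noncomputable def prim (D : Disc S) (c : S → S → ZMod 2) : S → ZMod 2 :=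
  if h : ∃ σ : S → ZMod 2, ∀ x ∈ D.ball 2, AgreeNear c (cob σ) x then h.choose else 0

theorem prim_spec (D : Disc S) (c : S → S → ZMod 2) (h : ∀ z ∈ D.cball 2, CocNear c z) :
    ∀ x ∈ D.ball 2, AgreeNear c (cob (prim D c)) x := by
  have h1 := disc_trivial D c h
  rw [prim, dif_pos h1]
  exact h1.choose_spec

/-- two primitives differ by a constant on preconnected sets -/
theorem prim_diff {Y : Set S} (hY : IsPreconnected Y) {c : S → S → ZMod 2} {u v : S → ZMod 2}
    (hu : ∀ x ∈ Y, AgreeNear c (cob u) x) (hv : ∀ x ∈ Y, AgreeNear c (cob v) x) :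
    ∀ x ∈ Y, ∀ y ∈ Y, u x + v x = u y + v y := by
  refine path_const hY id continuousOn_id c v ?_ u hu
  intro t ht
  obtain ⟨V, hV, hV'⟩ := hv t ht
  exact ⟨V, mem_nhdsWithin_of_mem_nhds hV, hV'⟩

theorem zmod2_eq_of_add_eq_zero {a b : ZMod 2} (h : a + b = 0) : a = b :=
  add_right_cancel (h.trans (zmod2_add_self b).symm)

open Classical in
theorem classify [T2Space S] [LocallyConnectedSpace S] (hS : HasDiscs S) {M W : Set S}
    (hM : IsCompact M) (hW : IsOpen W) (hMW : M ⊆ W) :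
    ∃ (n : ℕ) (inv : (S → S → ZMod 2) → Fin n), ∀ c c' : S → S → ZMod 2,
      (∀ z ∈ W, CocNear c z) → (∀ z ∈ W, CocNear c' z) → inv c = inv c' →
        ∃ h : S → ZMod 2, ∀ z ∈ M, AgreeNear (c + c') (cob h) z := by
  have hD : ∀ p : S, ∃ D : Disc S, D.ctr = p ∧ (p ∈ W → D.cball 2 ⊆ W) := by
    intro p
    by_cases hp : p ∈ W
    · obtain ⟨D, h1, h2⟩ := hS.small (hW.mem_nhds hp)
      exact ⟨D, h1, fun _ => h2⟩
    · obtain ⟨D, h1⟩ := hS p
      exact ⟨D, h1, fun h => absurd h hp⟩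
  choose D hD1 hD2 using hD
  obtain ⟨t, htM, hcov⟩ := hM.elim_nhds_subcover (fun z => (D z).ball 1) (fun z _ => by
    have h1 := ((D z).isOpen_ball (r := 1) (by norm_num)).mem_nhds ((D z).ctr_mem one_pos)
    rwa [hD1] at h1)
  have htW : ∀ z ∈ t, (D z).cball 2 ⊆ W := fun z hz => hD2 z (hMW (htM z hz))
  -- finite sets hitting the components
  have hF : ∀ z w : S, ∃ f : Finset S, ∀ x ∈ (D z).cball 1 ∩ (D w).cball 1, ∃ y ∈ f,
      y ∈ (D z).ball 2 ∩ (D w).ball 2 ∧
      x ∈ connectedComponentIn ((D z).ball 2 ∩ (D w).ball 2) y := by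
    intro z w
    have hK : IsCompact ((D z).cball 1 ∩ (D w).cball 1) :=
      ((D z).isCompact_cball (by norm_num)).inter_right ((D w).isClosed_cball (by norm_num))
    have hU : IsOpen ((D z).ball 2 ∩ (D w).ball 2) :=
      ((D z).isOpen_ball le_rfl).inter ((D w).isOpen_ball le_rfl)
    have hKU : (D z).cball 1 ∩ (D w).cball 1 ⊆ (D z).ball 2 ∩ (D w).ball 2 :=
      inter_subset_inter ((D z).cball_subset_ball (by norm_num))
        ((D w).cball_subset_ball (by norm_num))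
    obtain ⟨f, hf, hfc⟩ := hK.elim_nhds_subcover
      (fun y => connectedComponentIn ((D z).ball 2 ∩ (D w).ball 2) y)
      (fun y hy => hU.connectedComponentIn.mem_nhds (mem_connectedComponentIn (hKU hy)))
    refine ⟨f, fun x hx => ?_⟩
    obtain ⟨y, hy, hxy⟩ := mem_iUnion₂.mp (hfc hx)
    exact ⟨y, hy, hKU (hf y hy), hxy⟩
  choose F hF using hF
  let G : Finset S := t.biUnion fun z => t.biUnion fun w => F z w
  have hG : ∀ z ∈ t, ∀ w ∈ t, ∀ y ∈ F z w, y ∈ G := by
    intro z hz w hw y hy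
    simp only [G, Finset.mem_biUnion]
    exact ⟨z, hz, w, hw, hy⟩
  let Φ := {z // z ∈ t} → {w // w ∈ t} → {x // x ∈ G} → ZMod 2
  let inv0 : (S → S → ZMod 2) → Φ := fun c z w x => prim (D z) c x + prim (D w) c x
  refine ⟨Fintype.card Φ, fun c => Fintype.equivFin Φ (inv0 c), ?_⟩
  intro c c' hc hc' hinv
  have hinv' : inv0 c = inv0 c' := (Fintype.equivFin Φ).injective hinv
  let u : S → S → ZMod 2 := fun z x => prim (D z) c x + prim (D z) c' x
  have hu : ∀ z ∈ t, ∀ x ∈ (D z).ball 2, AgreeNear (c + c') (cob (u z)) x := by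
    intro z hz x hx
    have h1 := (prim_spec (D z) c (fun y hy => hc y (htW z hz hy)) x hx).add
      (prim_spec (D z) c' (fun y hy => hc' y (htW z hz hy)) x hx)
    rw [← cob_add] at h1
    exact h1
  have hagree : ∀ z ∈ t, ∀ w ∈ t, ∀ x ∈ (D z).cball 1 ∩ (D w).cball 1, u z x = u w x := by
    intro z hz w hw x hx
    obtain ⟨y, hy, hyU, hxy⟩ := hF z w x hx
    have h1 : u z x + u w x = u z y + u w y := by
      refine prim_diff (Y := connectedComponentIn ((D z).ball 2 ∩ (D w).ball 2) y)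
        isPreconnected_connectedComponentIn (c := c + c') ?_ ?_ x hxy y
        (mem_connectedComponentIn hyU)
      · intro a ha
        exact hu z hz a (connectedComponentIn_subset _ _ ha).1
      · intro a ha
        exact hu w hw a (connectedComponentIn_subset _ _ ha).2
    have h2 := congrFun (congrFun (congrFun hinv' ⟨z, hz⟩) ⟨w, hw⟩) ⟨y, hG z hz w hw y hy⟩
    simp only [inv0] at h2
    apply zmod2_eq_of_add_eq_zero
    rw [h1]
    have h3 : u z y + u w y = (prim (D z) c y + prim (D w) c y) +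
        (prim (D z) c' y + prim (D w) c' y) := by
      simp only [u]
      ring
    rw [h3, h2, zmod2_add_self]
  let h : S → ZMod 2 := fun x => if hx : ∃ z ∈ t, x ∈ (D z).ball 1 then u hx.choose x else 0
  have hh : ∀ z ∈ t, ∀ x ∈ (D z).ball 1, h x = u z x := by
    intro z hz x hx
    have hex : ∃ z ∈ t, x ∈ (D z).ball 1 := ⟨z, hz, hx⟩
    simp only [h]
    rw [dif_pos hex]
    exact hagree _ hex.choose_spec.1 z hz x
      ⟨(D _).ball_subset_cball hex.choose_spec.2, (D z).ball_subset_cball hx⟩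
  refine ⟨h, fun p hp => ?_⟩
  obtain ⟨z, hz, hpz⟩ := mem_iUnion₂.mp (hcov hp)
  refine (hu z hz p ((D z).ball_mono (by norm_num) hpz)).trans ?_
  refine ⟨(D z).ball 1, ((D z).isOpen_ball (by norm_num)).mem_nhds hpz, fun x hx y hy => ?_⟩
  simp only [cob]
  rw [hh z hz x hx, hh z hz y hy]

end SurfFib
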