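import Mathlib

/-! # Alexander–Spanier 1-cochains modulo 2 -/

open Set Filter Topology

namespace SurfFib

variable {S : Type*} [TopologicalSpace S]

/-- the coboundary of a function -/
def cob {S : Type*} (σ : S → ZMod 2) : S → S → ZMod 2 := fun x y => σ x + σ y

/-- two cochains agree near `z` -/
def AgreeNear (c c' : S → S → ZMod 2) (z : S) : Prop :=
  ∃ V ∈ 𝓝 z, ∀ x ∈ V, ∀ y ∈ V, c x y = c' x y

/-- `c` vanishes near `z` -/
def ZeroNear (c : S → S → ZMod 2) (z : S) : Prop := AgreeNear c 0 z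

/-- `c` is a coboundary near `z` -/
def CocNear (c : S → S → ZMod 2) (z : S) : Prop := ∃ σ, AgreeNear c (cob σ) z

/-- `c` is nontrivial in arbitrarily small punctured neighbourhoods of `p` -/
def Odd (c : S → S → ZMod 2) (p : S) : Prop :=
  ∀ O ∈ 𝓝 p, ∃ K ⊆ O, IsCompact K ∧ p ∉ K ∧ ¬ ∃ σ, ∀ z ∈ K, AgreeNear c (cob σ) z

theorem zmod2_add_self (a : ZMod 2) : a + a = 0 := CharTwo.add_self_eq_zero a

theorem AgreeNear.refl (c : S → S → ZMod 2) (z : S) : AgreeNear c c z :=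
  ⟨univ, univ_mem, fun _ _ _ _ => rfl⟩

theorem AgreeNear.symm {c c' : S → S → ZMod 2} {z : S} (h : AgreeNear c c' z) :
    AgreeNear c' c z := by
  obtain ⟨V, hV, h⟩ := h
  exact ⟨V, hV, fun x hx y hy => (h x hx y hy).symm⟩

theorem AgreeNear.trans {c c' c'' : S → S → ZMod 2} {z : S} (h : AgreeNear c c' z)
    (h' : AgreeNear c' c'' z) : AgreeNear c c'' z := by
  obtain ⟨V, hV, h⟩ := h
  obtain ⟨V', hV', h'⟩ := h'
  exact ⟨V ∩ V', inter_mem hV hV', fun x hx y hy =>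
    (h x hx.1 y hy.1).trans (h' x hx.2 y hy.2)⟩

theorem AgreeNear.add {c c' d d' : S → S → ZMod 2} {z : S} (h : AgreeNear c c' z)
    (h' : AgreeNear d d' z) : AgreeNear (c + d) (c' + d') z := by
  obtain ⟨V, hV, h⟩ := h
  obtain ⟨V', hV', h'⟩ := h'
  exact ⟨V ∩ V', inter_mem hV hV', fun x hx y hy => by
    simp only [Pi.add_apply]
    rw [h x hx.1 y hy.1, h' x hx.2 y hy.2]⟩

/-- agreement near `z` is an open condition -/
theorem AgreeNear.eventually {c c' : S → S → ZMod 2} {z : S} (h : AgreeNear c c' z) :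
    ∀ᶠ w in 𝓝 z, AgreeNear c c' w := by
  obtain ⟨V, hV, h⟩ := h
  filter_upwards [eventually_mem_nhds_iff.mpr hV] with w hw
  exact ⟨V, hw, h⟩

theorem cob_add (σ τ : S → ZMod 2) : cob (σ + τ) = cob σ + cob τ := by
  funext x y
  simp only [cob, Pi.add_apply]
  ring

theorem cob_zero : cob (0 : S → ZMod 2) = 0 := by
  funext x y
  simp [cob]

theorem ZeroNear.coc {c : S → S → ZMod 2} {z : S} (h : ZeroNear c z) : CocNear c z :=
  ⟨0, by rw [cob_zero]; exact h⟩

theorem CocNear.congr {c c' : S → S → ZMod 2} {z : S} (h : CocNear c z) (h' : AgreeNear c c' z) :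
    CocNear c' z := by
  obtain ⟨σ, hσ⟩ := h
  exact ⟨σ, h'.symm.trans hσ⟩

theorem CocNear.add {c c' : S → S → ZMod 2} {z : S} (h : CocNear c z) (h' : CocNear c' z) :
    CocNear (c + c') z := by
  obtain ⟨σ, hσ⟩ := h
  obtain ⟨τ, hτ⟩ := h'
  exact ⟨σ + τ, by rw [cob_add]; exact hσ.add hτ⟩

theorem ZeroNear.add {c c' : S → S → ZMod 2} {z : S} (h : ZeroNear c z) (h' : ZeroNear c' z) :
    ZeroNear (c + c') z := by
  have := AgreeNear.add h h'
  rwa [add_zero] at this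

theorem coch_add_self (c : S → S → ZMod 2) : c + c = 0 := by
  funext x y
  exact zmod2_add_self _

theorem Odd.congr {c c' : S → S → ZMod 2} {p : S} (h : Odd c p) (h' : AgreeNear c c' p) :
    Odd c' p := by
  intro O hO
  have h2 := h'.eventually
  obtain ⟨K, hKO, hK, hp, hn⟩ := h (O ∩ {w | AgreeNear c c' w}) (inter_mem hO h2)
  refine ⟨K, fun z hz => (hKO hz).1, hK, hp, ?_⟩
  rintro ⟨σ, hσ⟩
  exact hn ⟨σ, fun z hz => (hKO hz).2.trans (hσ z hz)⟩

theorem Odd.add_coc {c c' : S → S → ZMod 2} {p : S} (h : Odd c p) (h' : CocNear c' p) :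
    Odd (c + c') p := by
  intro O hO
  obtain ⟨τ, hτ⟩ := h'
  have h2 := hτ.eventually
  obtain ⟨K, hKO, hK, hp, hn⟩ := h (O ∩ {w | AgreeNear c' (cob τ) w}) (inter_mem hO h2)
  refine ⟨K, fun z hz => (hKO hz).1, hK, hp, ?_⟩
  rintro ⟨σ, hσ⟩
  refine hn ⟨σ + τ, fun z hz => ?_⟩
  have h3 := (hσ z hz).add ((hKO hz).2).symm
  have h4 := h3.add (AgreeNear.refl c' z)
  have e1 : c + c' + cob τ + c' = c + cob τ := by
    have : c + c' + cob τ + c' = c + cob τ + (c' + c') := by abel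
    rw [this, coch_add_self, add_zero]
  have e2 : cob σ + c' + c' = cob σ := by
    rw [add_assoc, coch_add_self, add_zero]
  rw [e1, e2] at h4
  have h5 := h4.add (AgreeNear.refl (cob τ) z)
  rw [add_assoc, coch_add_self, add_zero] at h5
  rwa [cob_add]

/-- **Path lemma**: along a preconnected set on which `c` is locally `cob e` (pulled back) and
`c = cob σ`, the function `σ + e` is constant. -/
theorem path_const {T : Type*} [TopologicalSpace T] {Y : Set T} (hY : IsPreconnected Y)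
    (γ : T → S) (hγ : ContinuousOn γ Y) (c : S → S → ZMod 2) (e : T → ZMod 2)
    (he : ∀ t ∈ Y, ∃ V ∈ 𝓝[Y] t, ∀ s ∈ V, ∀ s' ∈ V, c (γ s) (γ s') = e s + e s')
    (σ : S → ZMod 2) (hσ : ∀ t ∈ Y, AgreeNear c (cob σ) (γ t)) :
    ∀ s ∈ Y, ∀ s' ∈ Y, σ (γ s) + e s = σ (γ s') + e s' := by
  intro s hs s' hs'
  refine hY.induction₂' (fun a b => σ (γ a) + e a = σ (γ b) + e b) ?_ ?_ hs hs'
  · intro t ht
    obtain ⟨V, hV, hV'⟩ := he t ht
    obtain ⟨U, hU, hU'⟩ := hσ t ht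
    have h1 : ∀ᶠ b in 𝓝[Y] t, γ b ∈ U := (hγ t ht) hU
    filter_upwards [hV, h1] with b hbV hbU
    have htV : t ∈ V := mem_of_mem_nhdsWithin ht hV
    have htU : γ t ∈ U := mem_of_mem_nhds hU
    have e1 := hV' t htV b hbV
    have e2 := hU' (γ t) htU (γ b) hbU
    rw [e2] at e1
    simp only [cob] at e1
    have : σ (γ t) + e t = σ (γ b) + e b := by
      have h3 : σ (γ t) + σ (γ b) + (e t + σ (γ b)) = e t + e b + (e t + σ (γ b)) := by rw [e1]
      have h4 : σ (γ t) + σ (γ b) + (e t + σ (γ b)) = σ (γ t) + e t + (σ (γ b) + σ (γ b)) := by ring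
      have h5 : e t + e b + (e t + σ (γ b)) = σ (γ b) + e b + (e t + e t) := by ring
      rw [h4, h5, zmod2_add_self, zmod2_add_self, add_zero, add_zero] at h3
      exact h3
    exact ⟨this, this.symm⟩
  · intro a b c' _ _ _ h1 h2
    exact h1.trans h2

end SurfFib
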