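import Pool.Agent.SurfFib.Defs

/-! # Continuum theory part (module D)

`X` is a compact Hausdorff first countable space (`X = K`).  `δ` is an abstract type of discs
(discs of the surface), `i A` is the open disc and `c A` the closed disc (both intersected with `K`),
`sep A B` says that the closed discs are disjoint (in the surface).

## Paper proof

* (BB, boundary bumping) `C` compact connected, `O` open, `C ∩ O ≠ ∅`, `q ∈ C \ O`,
  `P = connectedComponentIn (C \ O) q`.  Then `P ∩ closure O ≠ ∅`.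
  Proof: otherwise, in the compact Hausdorff space `C \ O`, `P` is the intersection of the clopen sets
  containing `q` (`connectedComponent_eq_iInter_isClopen`), so by compactness there is a clopen set
  `D ∋ q` of `C \ O` with `D ∩ closure O = ∅`; `D` is closed and open in `C`, and `C \ D ⊇ C ∩ O ≠ ∅`.
* (BB2) `C` compact connected, `A, B` open with disjoint closures, both meeting `C`.  Then some
  component of `C \ (A ∪ B)` meets `closure A` and `closure B`.  (Otherwise separate `C \ (A ∪ B)` in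
  two disjoint clopen parts `D₁ ⊇ (C \ (A ∪ B)) ∩ closure A`, `D₂ ⊇ … ∩ closure B`; then
  `(D₁ ∪ (C ∩ closure A))` and `(D₂ ∪ (C ∩ closure B))` are disjoint closed, nonempty, and cover `C`.)
* Put `Crg A A' B B' = {C | IsComp (A ∪ B)ᶜ C ∧ (C ∩ A').Nonempty ∧ (C ∩ B').Nonempty}`.
* (MON) `O₁, O₂` open with disjoint closures, `A ∪ A' ⊆ O₁`, `B ∪ B' ⊆ O₂` and `Crg A A' B B'` infinite.
  Then `crossing O₁ O₂` is infinite.  Proof: for a member `C`, BB2 for `closure C` gives a component `D`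
  of `closure C \ (O₁ ∪ O₂)` meeting `closure O₁`, `closure O₂`; `closure C \ (O₁ ∪ O₂) ⊆ C` (a component
  is relatively closed); for `z₀ ∈ D` put `E = connectedComponentIn (O₁ ∪ O₂)ᶜ z₀ ⊇ D`; then `E ⊆ C` and
  `E ∈ crossing O₁ O₂`; distinct `C` are disjoint so give distinct `E`.
* (LIM) `ℱ` a `NeBot` filter on `ι`, `C i` preconnected, `Λ = {z | ∀ N ∈ 𝓝 z, ∃ᶠ i in ℱ, (C i ∩ N).Nonempty}`,
  if every neighbourhood of `x` (of `y`) eventually meets `C i` then `x` and `y` are in one component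
  of the closed set `Λ`.  (Otherwise `Λ = Λ₁ ⊔ Λ₂` closed, `x ∈ Λ₁`, `y ∈ Λ₂`, take disjoint open
  `G₁ ⊇ Λ₁`, `G₂ ⊇ Λ₂`; by compactness eventually `C i ⊆ G₁ ∪ G₂`.)
* (STEP) Let `sep A B` and `Cr A B := Crg (i A) (c A) (i B) (c B)` infinite.  Then there is a closed
  connected `L ⊆ (i A ∪ i B)ᶜ` meeting `c A` and `c B` such that for all
  `w ∈ L \ (c A ∪ c B)` and all `O` with `w ∈ i O`, `sep A O`, `sep B O`, `Cr A O` is infinite.
  Proof: `C j` (`j : ℕ`) distinct members of `Cr A B`, `𝒰` a free ultrafilter on `ℕ`, points of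
  `C j ∩ c A` converge to `x'` along `𝒰`, similarly `y'`; `L` = the component of `Λ_𝒰`
  (LIM) containing `x', y'`.  For `w, O` as above infinitely many `C j` meet `i O`; let
  `q_j ∈ C j ∩ c A`, `P_j = connectedComponentIn (C j \ i O) q_j`.  By BB `P_j` meets `c O`.
  If `P_j ∩ c B = ∅` then `P_j = connectedComponentIn (i A ∪ i O)ᶜ q_j =: Q_j` (if `Q_j ∩ i B = ∅` then
  `Q_j ⊆ C j \ i O` so `Q_j ⊆ P_j`; if `Q_j ∩ i B ≠ ∅`, by BB the component of `q_j` in `Q_j \ i B` meets
  `c B` and is contained in `P_j`, contradiction), a member of `Cr A O`; distinct `j` give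
  distinct (disjoint) sets.  If this happens for only finitely many `j`, the other `P_j` contradict `hT`.
* (MAIN) `F x = {x} ∪ {y | P x y}` where `P x y`: for all open `O₁ ∋ x`, `O₂ ∋ y` with disjoint closures
  `crossing O₁ O₂` is infinite.  `RTilde x y ↔ x = y ∨ P x y` (→: `closure (U n) ⊆ O₁` and
  `closure (V n) ⊆ O₂` for some `n`, and MON with `A = U n`, `A' = frontier (U n)`;
  ←: take antitone bases of open sets).  `F x` is closed (clear).  Connected: let `P x y`, `x ≠ y`;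
  take antitone bases `U n` at `x`, `V n` at `y`, `A n, B n : δ` with `x ∈ i (A n)`, `c (A n) ⊆ U n`,
  `y ∈ i (B n)`, `c (B n) ⊆ V n`, `sep (A n) (B n)`, `L n` from STEP, and apply LIM with `atTop`:
  the component of `Λ` containing `x` and `y` is contained in `F x`: for `w ∈ Λ`, `w ≠ x, y`, and open
  `O₁ ∋ x`, `O₂ ∋ w` with disjoint closures there is `n` with `c (A n) ⊆ O₁` and a point
  `w' ∈ L n ∩ O₂` outside `c (A n) ∪ c (B n)`, take `O : δ`, `w' ∈ i O`, `c O ⊆ O₂`, so
  `Cr (A n) O` is infinite, hence `crossing O₁ O₂` is infinite by MON.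
-/

open Set Filter Topology

namespace SurfFib

variable {X δ : Type*} [TopologicalSpace X]

theorem exists_clopen_sep {Y : Type*} [TopologicalSpace Y] [CompactSpace Y] [T2Space Y]
    {K₁ K₂ : Set Y} (h1 : IsClosed K₁) (h2 : IsClosed K₂)
    (h : ∀ y ∈ K₁, Disjoint (connectedComponent y) K₂) :
    ∃ D, IsClopen D ∧ K₁ ⊆ D ∧ Disjoint D K₂ := by
  have key : ∀ y ∈ K₁, ∃ Z : Set Y, IsClopen Z ∧ y ∈ Z ∧ Disjoint Z K₂ := by
    intro y hy
    have h3 := h y hy
    rw [connectedComponent_eq_iInter_isClopen] at h3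
    have hc : IsCompact K₂ := h2.isCompact
    have : Nonempty {s : Set Y // IsClopen s ∧ y ∈ s} := ⟨⟨univ, isClopen_univ, mem_univ _⟩⟩
    obtain ⟨Z, hZ⟩ := hc.elim_directed_family_closed
      (fun s : {s : Set Y // IsClopen s ∧ y ∈ s} => (s : Set Y)) (fun s => s.2.1.1)
      (by rw [inter_comm]; exact disjoint_iff_inter_eq_empty.1 h3)
      (by
        rintro ⟨s, hs⟩ ⟨t, ht⟩
        exact ⟨⟨s ∩ t, hs.1.inter ht.1, hs.2, ht.2⟩, inter_subset_left, inter_subset_right⟩)
    exact ⟨Z, Z.2.1, Z.2.2, by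
      rw [disjoint_iff_inter_eq_empty, inter_comm]; exact hZ⟩
  choose! Z hZ1 hZ2 hZ3 using key
  obtain ⟨t, ht, htK⟩ := h1.isCompact.elim_nhds_subcover Z
    (fun y hy => (hZ1 y hy).isOpen.mem_nhds (hZ2 y hy))
  refine ⟨⋃ y ∈ t, Z y, isClopen_biUnion_finset fun y hy => hZ1 y (ht y hy), htK, ?_⟩
  simp only [disjoint_iUnion_left]
  exact fun y hy => hZ3 y (ht y hy)

theorem exists_closed_sep [T2Space X] {F K₁ K₂ : Set X} (hF : IsCompact F) (h1 : IsClosed K₁)
    (h2 : IsClosed K₂) (hK : K₁ ⊆ F)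
    (h : ∀ p ∈ K₁, Disjoint (connectedComponentIn F p) K₂) :
    ∃ D₁ D₂ : Set X, IsClosed D₁ ∧ IsClosed D₂ ∧ D₁ ∪ D₂ = F ∧ Disjoint D₁ D₂ ∧ K₁ ⊆ D₁ ∧
      Disjoint D₁ K₂ := by
  have : CompactSpace F := isCompact_iff_compactSpace.1 hF
  obtain ⟨D, hD, hD1, hD2⟩ := exists_clopen_sep (Y := F) (K₁ := Subtype.val ⁻¹' K₁)
    (K₂ := Subtype.val ⁻¹' K₂) (h1.preimage continuous_subtype_val)
    (h2.preimage continuous_subtype_val) (by
      intro y hy
      have h3 := h y.1 hy
      rw [connectedComponentIn_eq_image y.2] at h3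
      rw [Set.disjoint_left] at h3 ⊢
      intro z hz hz2
      exact h3 ⟨z, hz, rfl⟩ hz2)
  have hcl : ∀ E : Set F, IsClosed E → IsClosed (Subtype.val '' E : Set X) := by
    intro E hE
    exact (hE.isCompact.image continuous_subtype_val).isClosed
  refine ⟨Subtype.val '' D, Subtype.val '' Dᶜ, hcl _ hD.1, hcl _ hD.compl.1, ?_, ?_, ?_, ?_⟩
  · rw [← image_union, union_compl_self, image_univ, Subtype.range_coe]
  · exact (disjoint_image_iff Subtype.val_injective).2 disjoint_compl_right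
  · intro p hp
    exact ⟨⟨p, hK hp⟩, hD1 hp, rfl⟩
  · rw [Set.disjoint_left]
    rintro _ ⟨z, hz, rfl⟩ hz2
    exact Set.disjoint_left.1 hD2 hz hz2

/-- (BB) boundary bumping -/
theorem boundary_bumping [T2Space X] {C O : Set X} (hC : IsCompact C) (hCc : IsPreconnected C)
    (hO : IsOpen O) (hCO : (C ∩ O).Nonempty) {q : X} (hq : q ∈ C \ O) :
    (connectedComponentIn (C \ O) q ∩ closure O).Nonempty := by
  by_contra hcon
  rw [← not_disjoint_iff_nonempty_inter, not_not] at hcon
  obtain ⟨D₁, D₂, h1, h2, h3, h4, h5, h6⟩ := exists_closed_sep (F := C \ O) (K₁ := {q})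
    (K₂ := closure O) (hC.diff hO) isClosed_singleton isClosed_closure
    (singleton_subset_iff.2 hq) (by rintro p rfl; exact hcon)
  have hD1 : D₁ ⊆ C := fun z hz => ((h3 ▸ mem_union_left _ hz : z ∈ C \ O)).1
  have := isPreconnected_closed_iff.1 hCc D₁ (D₂ ∪ closure O) h1 (h2.union isClosed_closure)
    (by
      intro z hz
      by_cases hzO : z ∈ O
      · exact Or.inr (Or.inr (subset_closure hzO))
      · have : z ∈ D₁ ∪ D₂ := by rw [h3]; exact ⟨hz, hzO⟩
        rcases this with h | h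
        · exact Or.inl h
        · exact Or.inr (Or.inl h))
    ⟨q, hq.1, h5 rfl⟩
    (by obtain ⟨z, hz1, hz2⟩ := hCO; exact ⟨z, hz1, Or.inr (subset_closure hz2)⟩)
  obtain ⟨z, -, hz1, hz2 | hz2⟩ := this
  · exact Set.disjoint_left.1 h4 hz1 hz2
  · exact Set.disjoint_left.1 h6 hz1 hz2

/-- (BB2) -/
theorem boundary_bumping₂ [T2Space X] {C A B : Set X} (hC : IsCompact C) (hCc : IsPreconnected C)
    (hA : IsOpen A) (hB : IsOpen B) (hAB : Disjoint (closure A) (closure B))
    (hCA : (C ∩ A).Nonempty) (hCB : (C ∩ B).Nonempty) :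
    ∃ z ∈ C \ (A ∪ B), (connectedComponentIn (C \ (A ∪ B)) z ∩ closure A).Nonempty ∧
      (connectedComponentIn (C \ (A ∪ B)) z ∩ closure B).Nonempty := by
  by_contra hcon
  push Not at hcon
  have hFc : IsCompact (C \ (A ∪ B)) := hC.diff (hA.union hB)
  obtain ⟨D₁, D₂, h1, h2, h3, h4, h5, h6⟩ := exists_closed_sep (F := C \ (A ∪ B))
    (K₁ := (C \ (A ∪ B)) ∩ closure A)
    (K₂ := closure B) hFc (hFc.isClosed.inter isClosed_closure) isClosed_closure
    inter_subset_left (by
      intro p hp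
      rw [disjoint_iff_inter_eq_empty]
      exact hcon p hp.1 ⟨p, mem_connectedComponentIn hp.1, hp.2⟩)
  have := isPreconnected_closed_iff.1 hCc (D₁ ∪ C ∩ closure A) (D₂ ∪ C ∩ closure B)
    (h1.union (hC.isClosed.inter isClosed_closure)) (h2.union (hC.isClosed.inter isClosed_closure))
    (by
      intro z hz
      by_cases hzA : z ∈ A
      · exact Or.inl (Or.inr ⟨hz, subset_closure hzA⟩)
      by_cases hzB : z ∈ B
      · exact Or.inr (Or.inr ⟨hz, subset_closure hzB⟩)
      have : z ∈ D₁ ∪ D₂ := by rw [h3]; exact ⟨hz, by simp [hzA, hzB]⟩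
      rcases this with h | h
      · exact Or.inl (Or.inl h)
      · exact Or.inr (Or.inl h))
    (by obtain ⟨z, hz1, hz2⟩ := hCA; exact ⟨z, hz1, Or.inr ⟨hz1, subset_closure hz2⟩⟩)
    (by obtain ⟨z, hz1, hz2⟩ := hCB; exact ⟨z, hz1, Or.inr ⟨hz1, subset_closure hz2⟩⟩)
  obtain ⟨z, -, hz1 | hz1, hz2 | hz2⟩ := this
  · exact Set.disjoint_left.1 h4 hz1 hz2
  · exact Set.disjoint_left.1 h6 hz1 hz2.2
  · have hzF : z ∈ C \ (A ∪ B) := h3 ▸ mem_union_right _ hz2
    exact Set.disjoint_left.1 h4 (h5 ⟨hzF, hz1.2⟩) hz2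
  · exact Set.disjoint_left.1 hAB hz1.2 hz2.2

theorem closure_inter_comp {F : Set X} {z : X} :
    closure (connectedComponentIn F z) ∩ F ⊆ connectedComponentIn F z := by
  intro p hp
  have hz : z ∈ F := by
    by_contra hz
    rw [connectedComponentIn_eq_empty hz, closure_empty] at hp
    exact hp.1
  have h1 : IsPreconnected (closure (connectedComponentIn F z) ∩ F) :=
    isPreconnected_connectedComponentIn.subset_closure
      (fun y hy => ⟨subset_closure hy, connectedComponentIn_subset F z hy⟩) inter_subset_left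
  exact h1.subset_connectedComponentIn ⟨subset_closure (mem_connectedComponentIn hz), hz⟩
    inter_subset_right hp

theorem isClosed_comp {F : Set X} (hF : IsClosed F) (z : X) :
    IsClosed (connectedComponentIn F z) := by
  rw [← closure_subset_iff_isClosed]
  intro p hp
  exact closure_inter_comp ⟨hp, closure_minimal (connectedComponentIn_subset F z) hF hp⟩

theorem IsComp.disjoint {F C D : Set X} (hC : IsComp F C) (hD : IsComp F D) (h : C ≠ D) :
    Disjoint C D := by
  obtain ⟨z, hz, rfl⟩ := hC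
  obtain ⟨w, hw, rfl⟩ := hD
  rw [Set.disjoint_left]
  intro p hp hp2
  exact h ((connectedComponentIn_eq hp).trans (connectedComponentIn_eq hp2).symm)

theorem IsComp.eq_of_mem {F C : Set X} (hC : IsComp F C) {p : X} (hp : p ∈ C) :
    C = connectedComponentIn F p := by
  obtain ⟨z, hz, rfl⟩ := hC
  exact connectedComponentIn_eq hp

/-- components of `(A ∪ B)ᶜ` meeting `A'` and `B'` -/
def Crg (A A' B B' : Set X) : Set (Set X) :=
  {C | IsComp (A ∪ B)ᶜ C ∧ (C ∩ A').Nonempty ∧ (C ∩ B').Nonempty}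

/-- (MON) -/
theorem crossing_infinite [CompactSpace X] [T2Space X] {A A' B B' O₁ O₂ : Set X}
    (h1 : IsOpen O₁) (h2 : IsOpen O₂) (hd : Disjoint (closure O₁) (closure O₂))
    (hA : A ⊆ O₁) (hA' : A' ⊆ O₁) (hB : B ⊆ O₂) (hB' : B' ⊆ O₂)
    (hinf : (Crg A A' B B').Infinite) : (crossing O₁ O₂).Infinite := by
  have key : ∀ C ∈ Crg A A' B B', ∃ E ∈ crossing O₁ O₂, E ⊆ C ∧ E.Nonempty := by
    rintro C ⟨⟨z, hz, rfl⟩, hCA, hCB⟩
    obtain ⟨w, hw, hw1, hw2⟩ := boundary_bumping₂
      (C := closure (connectedComponentIn (A ∪ B)ᶜ z)) isClosed_closure.isCompact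
      isPreconnected_connectedComponentIn.closure h1 h2 hd
      (hCA.mono (inter_subset_inter subset_closure hA'))
      (hCB.mono (inter_subset_inter subset_closure hB'))
    have hsub : (O₁ ∪ O₂)ᶜ ⊆ (A ∪ B)ᶜ := compl_subset_compl.2 (union_subset_union hA hB)
    have hwO : w ∈ (O₁ ∪ O₂)ᶜ := hw.2
    have hwC : w ∈ connectedComponentIn (A ∪ B)ᶜ z := closure_inter_comp ⟨hw.1, hsub hwO⟩
    have hDE : connectedComponentIn (closure (connectedComponentIn (A ∪ B)ᶜ z) \ (O₁ ∪ O₂)) w ⊆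
        connectedComponentIn (O₁ ∪ O₂)ᶜ w :=
      connectedComponentIn_mono w (fun p hp => hp.2)
    have hEsub : connectedComponentIn (O₁ ∪ O₂)ᶜ w ⊆ (O₁ ∪ O₂)ᶜ := connectedComponentIn_subset _ _
    refine ⟨connectedComponentIn (O₁ ∪ O₂)ᶜ w, ⟨⟨w, hwO, rfl⟩, ?_, ?_⟩, ?_,
      ⟨w, mem_connectedComponentIn hwO⟩⟩
    · obtain ⟨p, hp1, hp2⟩ := hw1
      rw [h1.frontier_eq]
      exact ⟨p, hDE hp1, hp2, fun h => hEsub (hDE hp1) (Or.inl h)⟩
    · obtain ⟨p, hp1, hp2⟩ := hw2
      rw [h2.frontier_eq]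
      exact ⟨p, hDE hp1, hp2, fun h => hEsub (hDE hp1) (Or.inr h)⟩
    · rw [connectedComponentIn_eq hwC]
      exact connectedComponentIn_mono w hsub
  choose! E hE1 hE2 hE3 using key
  refine infinite_of_injOn_mapsTo (f := E) ?_ (fun C hC => hE1 C hC) hinf
  intro C hC D hD hCD
  by_contra hne
  obtain ⟨p, hp⟩ := hE3 C hC
  exact Set.disjoint_left.1 (hC.1.disjoint hD.1 hne) (hE2 C hC hp)
    (hE2 D hD (by rw [← hCD]; exact hp))

/-- the set of limit points of the sets `C i` along `ℱ` -/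
def Lam {ι : Type*} (ℱ : Filter ι) (C : ι → Set X) : Set X :=
  {z | ∀ N ∈ 𝓝 z, ∃ᶠ i in ℱ, (C i ∩ N).Nonempty}

theorem isClosed_Lam {ι : Type*} (ℱ : Filter ι) (C : ι → Set X) : IsClosed (Lam ℱ C) := by
  rw [← isOpen_compl_iff, isOpen_iff_mem_nhds]
  intro z hz
  simp only [Lam, mem_compl_iff, mem_ofPred_eq, not_forall] at hz
  obtain ⟨N, hN, hz⟩ := hz
  refine mem_of_superset (interior_mem_nhds.2 hN) ?_
  intro w hw hw2
  exact hz (hw2 N (mem_interior_iff_mem_nhds.1 hw))

/-- (LIM) -/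
theorem lim_conn {ι : Type*} [CompactSpace X] [T2Space X] (ℱ : Filter ι) [ℱ.NeBot]
    (C : ι → Set X) (hC : ∀ i, IsPreconnected (C i)) {x y : X}
    (hx : ∀ N ∈ 𝓝 x, ∀ᶠ i in ℱ, (C i ∩ N).Nonempty)
    (hy : ∀ N ∈ 𝓝 y, ∀ᶠ i in ℱ, (C i ∩ N).Nonempty) :
    y ∈ connectedComponentIn (Lam ℱ C) x := by
  have hxL : x ∈ Lam ℱ C := fun N hN => (hx N hN).frequently
  have hyL : y ∈ Lam ℱ C := fun N hN => (hy N hN).frequently
  by_contra hcon
  obtain ⟨D₁, D₂, h1, h2, h3, h4, h5, h6⟩ := exists_closed_sep (F := Lam ℱ C) (K₁ := {x})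
    (K₂ := {y}) (isClosed_Lam ℱ C).isCompact isClosed_singleton isClosed_singleton
    (singleton_subset_iff.2 hxL) (by rintro p rfl; exact disjoint_singleton_right.2 hcon)
  obtain ⟨G₁, G₂, hG1, hG2, hDG1, hDG2, hG⟩ := normal_separation h1 h2 h4
  have hyD : y ∈ D₂ := by
    rcases (by rw [h3]; exact hyL : y ∈ D₁ ∪ D₂) with h | h
    · exact absurd rfl (Set.disjoint_left.1 h6 h)
    · exact h
  have hK : IsCompact (G₁ ∪ G₂)ᶜ := (hG1.union hG2).isClosed_compl.isCompact
  have hev : ∀ᶠ i in ℱ, C i ∩ (G₁ ∪ G₂)ᶜ = ∅ := by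
    refine hK.induction_on (p := fun s => ∀ᶠ i in ℱ, C i ∩ s = ∅) (by simp) ?_ ?_ ?_
    · intro s t hst ht
      filter_upwards [ht] with i hi
      exact subset_eq_empty (inter_subset_inter_right _ hst) hi
    · intro s t hs ht
      filter_upwards [hs, ht] with i hi hi'
      rw [inter_union_distrib_left, hi, hi', union_empty]
    · intro z hz
      have hz2 : z ∉ Lam ℱ C := by
        rw [← h3]
        rintro (h | h)
        · exact hz (Or.inl (hDG1 h))
        · exact hz (Or.inr (hDG2 h))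
      simp only [Lam, mem_ofPred_eq, not_forall, not_frequently] at hz2
      obtain ⟨N, hN, hz2⟩ := hz2
      refine ⟨N, mem_nhdsWithin_of_mem_nhds hN, ?_⟩
      filter_upwards [hz2] with i hi
      exact not_nonempty_iff_eq_empty.1 hi
  obtain ⟨i, hi1, hi2, hi3⟩ := (hev.and ((hx G₁ (hG1.mem_nhds (hDG1 (h5 rfl)))).and
    (hy G₂ (hG2.mem_nhds (hDG2 hyD))))).exists
  obtain ⟨p, -, hp1, hp2⟩ := hC i G₁ G₂ hG1 hG2 (by
    intro p hp
    by_contra hpG
    have : p ∈ C i ∩ (G₁ ∪ G₂)ᶜ := ⟨hp, hpG⟩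
    rw [hi1] at this
    exact this) hi2 hi3
  exact Set.disjoint_left.1 hG hp1 hp2

/-- there is no infinite family of pairwise disjoint continua outside three separated discs
which all meet the three closed discs -/
def NoTripod (i c : δ → Set X) (sep : δ → δ → Prop) : Prop :=
  ∀ A₁ A₂ A₃ : δ, sep A₁ A₂ → sep A₁ A₃ → sep A₂ A₃ →
    ¬ ∃ P : ℕ → Set X, (∀ j, IsCompact (P j)) ∧ (∀ j, IsConnected (P j)) ∧
      (∀ j k, j ≠ k → Disjoint (P j) (P k)) ∧
      (∀ j, Disjoint (P j) (i A₁) ∧ Disjoint (P j) (i A₂) ∧ Disjoint (P j) (i A₃)) ∧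
      (∀ j, (P j ∩ c A₁).Nonempty ∧ (P j ∩ c A₂).Nonempty ∧ (P j ∩ c A₃).Nonempty)

/-- (STEP) -/
theorem step [CompactSpace X] [T2Space X]
    (i c : δ → Set X) (sep : δ → δ → Prop)
    (hi : ∀ A, IsOpen (i A)) (hc : ∀ A, IsClosed (c A)) (hic : ∀ A, i A ⊆ c A)
    (hsep : ∀ A B, sep A B → Disjoint (c A) (c B))
    (hT : NoTripod i c sep) {A B : δ} (hAB : sep A B)
    (hinf : (Crg (i A) (c A) (i B) (c B)).Infinite) :
    ∃ L : Set X, IsPreconnected L ∧ (L ∩ c A).Nonempty ∧ (L ∩ c B).Nonempty ∧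
      ∀ w ∈ L, ∀ O, w ∈ i O → sep A O → sep B O →
        (Crg (i A) (c A) (i O) (c O)).Infinite := by
  set f := hinf.natEmbedding with hf
  set C : ℕ → Set X := fun j => (f j : Set X) with hCdef
  have hCm : ∀ j, C j ∈ Crg (i A) (c A) (i B) (c B) := fun j => (f j).2
  have hCinj : ∀ j k, j ≠ k → C j ≠ C k := fun j k hjk h => hjk (f.injective (Subtype.ext h))
  have hCdisj : ∀ j k, j ≠ k → Disjoint (C j) (C k) := fun j k hjk =>
    (hCm j).1.disjoint (hCm k).1 (hCinj j k hjk)
  choose a ha using fun j => (hCm j).2.1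
  choose b hb using fun j => (hCm j).2.2
  have hFcl : IsClosed (i A ∪ i B)ᶜ := ((hi A).union (hi B)).isClosed_compl
  have hCcl : ∀ j, IsClosed (C j) := by
    intro j
    rw [(hCm j).1.eq_of_mem (ha j).1]
    exact isClosed_comp hFcl _
  have hCpre : ∀ j, IsPreconnected (C j) := by
    intro j
    rw [(hCm j).1.eq_of_mem (ha j).1]
    exact isPreconnected_connectedComponentIn
  have hCsub : ∀ j, C j ⊆ (i A ∪ i B)ᶜ := by
    intro j
    rw [(hCm j).1.eq_of_mem (ha j).1]
    exact connectedComponentIn_subset _ _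
  set U : Ultrafilter ℕ := hyperfilter ℕ with hU
  obtain ⟨x', hx'⟩ : ∃ x', Tendsto a (U : Filter ℕ) (𝓝 x') :=
    ⟨_, (U.map a).le_nhds_lim⟩
  obtain ⟨y', hy'⟩ : ∃ y', Tendsto b (U : Filter ℕ) (𝓝 y') :=
    ⟨_, (U.map b).le_nhds_lim⟩
  have hx1 : ∀ N ∈ 𝓝 x', ∀ᶠ j in (U : Filter ℕ), (C j ∩ N).Nonempty := by
    intro N hN
    filter_upwards [hx' hN] with j hj
    exact ⟨a j, (ha j).1, hj⟩
  have hy1 : ∀ N ∈ 𝓝 y', ∀ᶠ j in (U : Filter ℕ), (C j ∩ N).Nonempty := by
    intro N hN
    filter_upwards [hy' hN] with j hj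
    exact ⟨b j, (hb j).1, hj⟩
  refine ⟨connectedComponentIn (Lam (U : Filter ℕ) C) x', isPreconnected_connectedComponentIn,
    ⟨x', lim_conn _ C hCpre hx1 hx1, (hc A).mem_of_tendsto hx' (.of_forall fun j => (ha j).2)⟩,
    ⟨y', lim_conn _ C hCpre hx1 hy1, (hc B).mem_of_tendsto hy' (.of_forall fun j => (hb j).2)⟩, ?_⟩
  intro w hw O hwO hAO hBO
  have hwL : w ∈ Lam (U : Filter ℕ) C := connectedComponentIn_subset _ _ hw
  have hJ : {j | (C j ∩ i O).Nonempty}.Infinite := by
    rw [← frequently_cofinite_iff_infinite]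
    exact (hwL (i O) ((hi O).mem_nhds hwO)).filter_mono hyperfilter_le_cofinite
  have haO : ∀ j, a j ∈ C j \ i O := fun j =>
    ⟨(ha j).1, fun h => Set.disjoint_left.1 (hsep A O hAO) (ha j).2 (hic O h)⟩
  set P : ℕ → Set X := fun j => connectedComponentIn (C j \ i O) (a j) with hP
  have hPsub : ∀ j, P j ⊆ C j \ i O := fun j => connectedComponentIn_subset _ _
  have hPcl : ∀ j, IsClosed (P j) := fun j => isClosed_comp ((hCcl j).sdiff (hi O)) _
  have hPpre : ∀ j, IsPreconnected (P j) := fun j => isPreconnected_connectedComponentIn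
  have haP : ∀ j, a j ∈ P j := fun j => mem_connectedComponentIn (haO j)
  have hPO : ∀ j, (C j ∩ i O).Nonempty → (P j ∩ c O).Nonempty := by
    intro j hj
    exact (boundary_bumping (hCcl j).isCompact (hCpre j) (hi O) hj (haO j)).mono
      (inter_subset_inter_right _ (closure_minimal (hic O) (hc O)))
  have hPdisj : ∀ j k, j ≠ k → Disjoint (P j) (P k) := fun j k hjk =>
    (hCdisj j k hjk).mono (fun p hp => (hPsub j hp).1) (fun p hp => (hPsub k hp).1)
  by_cases hJ1 : {j | (C j ∩ i O).Nonempty ∧ (P j ∩ c B).Nonempty}.Infinite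
  · exfalso
    set e := hJ1.natEmbedding with he
    refine hT A B O hAB hAO hBO ⟨fun n => P (e n : ℕ), fun n => (hPcl _).isCompact,
      fun n => ⟨⟨_, haP _⟩, hPpre _⟩, ?_, ?_, ?_⟩
    · intro n m hnm
      exact hPdisj _ _ (fun h => hnm (e.injective (Subtype.ext h)))
    · intro n
      refine ⟨?_, ?_, ?_⟩ <;> rw [Set.disjoint_left] <;> intro p hp hp2
      · exact hCsub _ (hPsub _ hp).1 (Or.inl hp2)
      · exact hCsub _ (hPsub _ hp).1 (Or.inr hp2)
      · exact (hPsub _ hp).2 hp2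
    · intro n
      exact ⟨⟨a (e n), haP _, (ha _).2⟩, (e n).2.2, hPO _ (e n).2.1⟩
  · rw [not_infinite] at hJ1
    have hJ2 := hJ.sdiff hJ1
    refine infinite_of_injOn_mapsTo (f := P) ?_ ?_ hJ2
    · intro j _ k _ hjk
      by_contra hne
      exact Set.disjoint_left.1 (hPdisj j k hne) (haP j) (by rw [← hjk]; exact haP j)
    · rintro j ⟨hj1, hj2⟩
      have hj1' : (C j ∩ i O).Nonempty := hj1
      have hPB : ¬ (P j ∩ c B).Nonempty := fun h => hj2 ⟨hj1, h⟩
      refine ⟨⟨a j, ?_, ?_⟩, ⟨a j, haP j, (ha j).2⟩, hPO j hj1⟩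
      · rintro (h | h)
        · exact hCsub j (ha j).1 (Or.inl h)
        · exact (haO j).2 h
      · have hajF : a j ∈ (i A ∪ i O)ᶜ := by
          rintro (h | h)
          · exact hCsub j (ha j).1 (Or.inl h)
          · exact (haO j).2 h
        apply Subset.antisymm
        · exact (hPpre j).subset_connectedComponentIn (haP j) (by
            intro p hp
            rintro (h | h)
            · exact hCsub j (hPsub j hp).1 (Or.inl h)
            · exact (hPsub j hp).2 h)
        · set Q := connectedComponentIn (i A ∪ i O)ᶜ (a j) with hQ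
          have hQsub : Q ⊆ (i A ∪ i O)ᶜ := connectedComponentIn_subset _ _
          have hQcl : IsClosed Q := isClosed_comp ((hi A).union (hi O)).isClosed_compl _
          have haQ : a j ∈ Q := mem_connectedComponentIn hajF
          -- a preconnected set inside `Q \ i B` containing `a j` is inside `P j`
          have hin : ∀ S : Set X, IsPreconnected S → a j ∈ S → S ⊆ Q → Disjoint S (i B) →
              S ⊆ P j := by
            intro S hS haS hSQ hSB
            have hSC : S ⊆ C j := by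
              rw [(hCm j).1.eq_of_mem (ha j).1]
              refine hS.subset_connectedComponentIn haS ?_
              intro p hp
              rintro (h | h)
              · exact hQsub (hSQ hp) (Or.inl h)
              · exact Set.disjoint_left.1 hSB hp h
            exact hS.subset_connectedComponentIn haS
              (fun p hp => ⟨hSC hp, fun h => hQsub (hSQ hp) (Or.inr h)⟩)
          by_cases hQB : (Q ∩ i B).Nonempty
          · exfalso
            have haB : a j ∈ Q \ i B := ⟨haQ, fun h => hCsub j (ha j).1 (Or.inr h)⟩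
            have h1 := boundary_bumping hQcl.isCompact isPreconnected_connectedComponentIn (hi B)
              hQB haB
            have h2 : connectedComponentIn (Q \ i B) (a j) ⊆ P j :=
              hin _ isPreconnected_connectedComponentIn (mem_connectedComponentIn haB)
                (fun p hp => (connectedComponentIn_subset _ _ hp).1)
                (Set.disjoint_left.2 fun p hp => (connectedComponentIn_subset _ _ hp).2)
            exact hPB (h1.mono (inter_subset_inter h2 (closure_minimal (hic B) (hc B))))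
          · exact hin Q isPreconnected_connectedComponentIn haQ Subset.rfl
              (by rw [disjoint_iff_inter_eq_empty]; exact not_nonempty_iff_eq_empty.1 hQB)

/-- all neighbourhoods with disjoint closures are crossed by infinitely many components -/
def Pc (x y : X) : Prop :=
  ∀ O₁ O₂ : Set X, IsOpen O₁ → IsOpen O₂ → x ∈ O₁ → y ∈ O₂ →
    Disjoint (closure O₁) (closure O₂) → (crossing O₁ O₂).Infinite

theorem crossing_eq_Crg (A B : Set X) : crossing A B = Crg A (frontier A) B (frontier B) := rfl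

theorem exists_closure_subset [CompactSpace X] {U : ℕ → Set X} (hU : Antitone U) {x : X}
    (hx : (⋂ n, closure (U n)) = {x}) {O : Set X} (hO : IsOpen O) (hxO : x ∈ O) :
    ∃ n, closure (U n) ⊆ O := by
  have h1 : IsCompact Oᶜ := hO.isClosed_compl.isCompact
  obtain ⟨n, hn⟩ := h1.elim_directed_family_closed (fun n => closure (U n))
    (fun n => isClosed_closure) (by
      rw [hx]
      rw [← disjoint_iff_inter_eq_empty, disjoint_singleton_right]
      exact fun h => h hxO)
    (by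
      intro n m
      exact ⟨max n m, closure_mono (hU (le_max_left _ _)), closure_mono (hU (le_max_right _ _))⟩)
  refine ⟨n, fun p hp => ?_⟩
  by_contra hpO
  have : p ∈ Oᶜ ∩ closure (U n) := ⟨hpO, hp⟩
  rw [hn] at this
  exact this

theorem rtilde_iff [CompactSpace X] [T2Space X] [FirstCountableTopology X] (x y : X) :
    RTilde x y ↔ Pc x y := by
  constructor
  · rintro (rfl | ⟨U, V, hU, hV, hxU, hyV, hU2, hV2, hinf⟩)
    · intro O₁ O₂ _ _ h1 h2 hd
      exact absurd (subset_closure h2) (Set.disjoint_left.1 hd (subset_closure h1))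
    · intro O₁ O₂ hO1 hO2 h1 h2 hd
      obtain ⟨n, hn⟩ := exists_closure_subset hU hU2 hO1 h1
      obtain ⟨m, hm⟩ := exists_closure_subset hV hV2 hO2 h2
      have hn' : closure (U (max n m)) ⊆ O₁ := (closure_mono (hU (le_max_left _ _))).trans hn
      have hm' : closure (V (max n m)) ⊆ O₂ := (closure_mono (hV (le_max_right _ _))).trans hm
      exact crossing_infinite hO1 hO2 hd (subset_closure.trans hn')
        (frontier_subset_closure.trans hn') (subset_closure.trans hm')
        (frontier_subset_closure.trans hm') (hinf (max n m))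
  · intro h
    by_cases hxy : x = y
    · exact Or.inl hxy
    right
    obtain ⟨G₁, G₂, hG1, hG2, hxG, hyG, hG⟩ :=
      normal_separation (isClosed_singleton (x := x)) (isClosed_singleton (x := y))
        (disjoint_singleton.2 hxy)
    -- shrink to get disjoint closures
    obtain ⟨U₀, hU₀, hU₀c, hU₀s⟩ := exists_mem_nhds_isClosed_subset
      (hG1.mem_nhds (hxG rfl))
    obtain ⟨V₀, hV₀, hV₀c, hV₀s⟩ := exists_mem_nhds_isClosed_subset
      (hG2.mem_nhds (hyG rfl))
    have hbasis : ∀ (z : X) (W : Set X), W ∈ 𝓝 z → IsClosed W → ∃ U : ℕ → Set X, Antitone U ∧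
        (∀ n, IsOpen (U n)) ∧ (∀ n, z ∈ U n) ∧ (∀ n, closure (U n) ⊆ W) ∧
        (⋂ n, closure (U n)) = {z} := by
      intro z W hW hWc
      obtain ⟨B, hB⟩ := (𝓝 z).exists_antitone_basis
      refine ⟨fun n => interior (B n) ∩ interior W, ?_, ?_, ?_, ?_, ?_⟩
      · intro n m hnm
        exact inter_subset_inter_left _ (interior_mono (hB.2 hnm))
      · intro n
        exact isOpen_interior.inter isOpen_interior
      · intro n
        exact ⟨mem_interior_iff_mem_nhds.2 (hB.1.mem_of_mem trivial),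
          mem_interior_iff_mem_nhds.2 hW⟩
      · intro n
        exact closure_minimal (inter_subset_right.trans interior_subset) hWc
      · apply Subset.antisymm
        · intro p hp
          by_contra hpz
          have hpz' : z ≠ p := fun h => hpz h.symm
          obtain ⟨S, T, hS, hT, hzS, hpT, hST⟩ := t2_separation hpz'
          obtain ⟨n, -, hn⟩ := hB.1.mem_iff.1 (hS.mem_nhds hzS)
          have h1 : p ∈ closure (interior (B n) ∩ interior W) := mem_iInter.1 hp n
          obtain ⟨q, hq1, hq2⟩ := mem_closure_iff.1 h1 T hT hpT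
          exact Set.disjoint_left.1 hST (hn (interior_subset hq2.1)) hq1
        · rintro p rfl
          refine mem_iInter.2 fun n => subset_closure ?_
          exact ⟨mem_interior_iff_mem_nhds.2 (hB.1.mem_of_mem trivial),
            mem_interior_iff_mem_nhds.2 hW⟩
    obtain ⟨U, hU1, hU2, hU3, hU4, hU5⟩ := hbasis x U₀ hU₀ hU₀c
    obtain ⟨V, hV1, hV2, hV3, hV4, hV5⟩ := hbasis y V₀ hV₀ hV₀c
    exact ⟨U, V, hU1, hV1, fun n => (hU2 n).mem_nhds (hU3 n), fun n => (hV2 n).mem_nhds (hV3 n),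
      hU5, hV5, fun n => h _ _ (hU2 n) (hV2 n) (hU3 n) (hV3 n)
        (hG.mono ((hU4 n).trans hU₀s) ((hV4 n).trans hV₀s))⟩

theorem fiber_continuum [CompactSpace X] [T2Space X] [FirstCountableTopology X]
    (i c : δ → Set X) (sep : δ → δ → Prop)
    (hi : ∀ A, IsOpen (i A)) (hc : ∀ A, IsClosed (c A)) (hic : ∀ A, i A ⊆ c A)
    (hsep : ∀ A B, sep A B → Disjoint (c A) (c B))
    (hb : ∀ p, ∀ U ∈ 𝓝 p, ∀ s : Set δ, s.Finite → (∀ E ∈ s, p ∉ c E) →
      ∃ A, p ∈ i A ∧ c A ⊆ U ∧ ∀ E ∈ s, sep E A)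
    (hT : NoTripod i c sep) (x : X) :
    IsCompact {y | RTilde x y} ∧ IsConnected {y | RTilde x y} := by
  have hset : {y | RTilde x y} = {y | Pc x y} := by
    ext y
    exact rtilde_iff x y
  rw [hset]
  have hxx : Pc x x := by
    intro O₁ O₂ _ _ h1 h2 hd
    exact absurd (subset_closure h2) (Set.disjoint_left.1 hd (subset_closure h1))
  constructor
  · apply IsClosed.isCompact
    rw [← isOpen_compl_iff, isOpen_iff_mem_nhds]
    intro y hy
    simp only [mem_compl_iff, mem_ofPred_eq, Pc, not_forall] at hy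
    obtain ⟨O₁, O₂, hO1, hO2, h1, h2, hd, hfin⟩ := hy
    refine mem_of_superset (hO2.mem_nhds h2) ?_
    intro z hz hz2
    exact hfin (hz2 O₁ O₂ hO1 hO2 h1 hz hd)
  · refine ⟨⟨x, hxx⟩, isPreconnected_of_forall x ?_⟩
    intro y hy
    by_cases hxy : x = y
    · subst hxy
      exact ⟨{x}, singleton_subset_iff.2 hxx, rfl, rfl, isPreconnected_singleton⟩
    have hy' : Pc x y := hy
    obtain ⟨Bx, hBx⟩ := (𝓝 x).exists_antitone_basis
    obtain ⟨By, hBy⟩ := (𝓝 y).exists_antitone_basis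
    have hdisc : ∀ n, ∃ A B : δ, x ∈ i A ∧ y ∈ i B ∧ c A ⊆ Bx n ∧ c B ⊆ By n ∧ sep A B := by
      intro n
      obtain ⟨A, hA1, hA2, -⟩ := hb x (Bx n ∩ {y}ᶜ)
        (inter_mem (hBx.1.mem_of_mem trivial) (isOpen_compl_singleton.mem_nhds hxy)) ∅
        finite_empty (by simp)
      obtain ⟨B, hB1, hB2, hB3⟩ := hb y (By n) (hBy.1.mem_of_mem trivial) {A} (finite_singleton A)
        (by rintro E rfl h; exact (hA2 h).2 rfl)
      exact ⟨A, B, hA1, hB1, fun p hp => (hA2 hp).1, hB2, hB3 A rfl⟩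
    choose A B hA1 hB1 hA2 hB2 hAB using hdisc
    have hcr : ∀ n, (Crg (i (A n)) (c (A n)) (i (B n)) (c (B n))).Infinite := by
      intro n
      have hclA : closure (i (A n)) ⊆ c (A n) := closure_minimal (hic _) (hc _)
      have hclB : closure (i (B n)) ⊆ c (B n) := closure_minimal (hic _) (hc _)
      have h1 := hy' (i (A n)) (i (B n)) (hi _) (hi _) (hA1 n) (hB1 n)
        ((hsep _ _ (hAB n)).mono hclA hclB)
      refine h1.mono ?_
      rintro C ⟨hC1, hC2, hC3⟩
      exact ⟨hC1, hC2.mono (inter_subset_inter_right _ (frontier_subset_closure.trans hclA)),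
        hC3.mono (inter_subset_inter_right _ (frontier_subset_closure.trans hclB))⟩
    choose L hL1 hL2 hL3 hL4 using fun n => step i c sep hi hc hic hsep hT (hAB n) (hcr n)
    have hxL : ∀ N ∈ 𝓝 x, ∀ᶠ n in atTop, (L n ∩ N).Nonempty := by
      intro N hN
      obtain ⟨n, -, hn⟩ := hBx.1.mem_iff.1 hN
      filter_upwards [eventually_ge_atTop n] with m hm
      exact (hL2 m).mono (inter_subset_inter_right _ ((hA2 m).trans ((hBx.2 hm).trans hn)))
    have hyL : ∀ N ∈ 𝓝 y, ∀ᶠ n in atTop, (L n ∩ N).Nonempty := by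
      intro N hN
      obtain ⟨n, -, hn⟩ := hBy.1.mem_iff.1 hN
      filter_upwards [eventually_ge_atTop n] with m hm
      exact (hL3 m).mono (inter_subset_inter_right _ ((hB2 m).trans ((hBy.2 hm).trans hn)))
    refine ⟨connectedComponentIn (Lam atTop L) x, ?_, lim_conn atTop L hL1 hxL hxL,
      lim_conn atTop L hL1 hxL hyL, isPreconnected_connectedComponentIn⟩
    intro w hw
    have hwL : w ∈ Lam atTop L := connectedComponentIn_subset _ _ hw
    by_cases hwx : w = x
    · subst hwx; exact hxx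
    by_cases hwy : w = y
    · subst hwy; exact hy
    intro O₁ O₂ hO1 hO2 h1 h2 hd
    -- separate `w` from `y`
    obtain ⟨S, T, hS, hT', hwS, hyT, hST⟩ := t2_separation hwy
    obtain ⟨n₁, -, hn₁⟩ := hBx.1.mem_iff.1 (hO1.mem_nhds h1)
    obtain ⟨n₂, -, hn₂⟩ := hBy.1.mem_iff.1 (hT'.mem_nhds hyT)
    obtain ⟨n, hn, w', hw'L, hw'⟩ := ((hwL (O₂ ∩ S) ((hO2.inter hS).mem_nhds ⟨h2, hwS⟩)).and_eventually
      (eventually_ge_atTop (max n₁ n₂))).exists.imp (fun n hn => (⟨hn.2, hn.1⟩ :
        max n₁ n₂ ≤ n ∧ (L n ∩ (O₂ ∩ S)).Nonempty))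
    have hcA : c (A n) ⊆ O₁ := (hA2 n).trans ((hBx.2 ((le_max_left _ _).trans hn)).trans hn₁)
    have hcB : c (B n) ⊆ T := (hB2 n).trans ((hBy.2 ((le_max_right _ _).trans hn)).trans hn₂)
    have hw'A : w' ∉ c (A n) := fun h =>
      Set.disjoint_left.1 hd (subset_closure (hcA h)) (subset_closure hw'.1)
    have hw'B : w' ∉ c (B n) := fun h => Set.disjoint_left.1 hST hw'.2 (hcB h)
    obtain ⟨O, hO1', hO2', hO3'⟩ := hb w' O₂ (hO2.mem_nhds hw'.1) {A n, B n} (by simp)
      (by rintro E (rfl | rfl) <;> assumption)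
    have h3 := hL4 n w' hw'L O hO1' (hO3' _ (Or.inl rfl)) (hO3' _ (Or.inr rfl))
    exact crossing_infinite hO1 hO2 hd ((hic _).trans hcA) hcA ((hic _).trans hO2') hO2' h3

end SurfFib
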