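import Pool.Agent.SurfFib.Disc

/-! # Local dipoles -/

open Set Filter Topology Metric

namespace SurfFib

/-- indicator of the (closed) upper half plane -/
noncomputable def upp (w : ℂ) : ZMod 2 := if 0 ≤ w.im then 1 else 0

/-- the jump cocycle of the argument -/
noncomputable def kap (w w' : ℂ) : ZMod 2 := if w.re < 0 ∧ w'.re < 0 then upp w + upp w' else 0

theorem kap_neg {w : ℂ} (h : w.re < 0) : AgreeNear kap (cob upp) w := by
  refine ⟨{z | z.re < 0}, (isOpen_lt Complex.continuous_re continuous_const).mem_nhds h, ?_⟩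
  intro x hx y hy
  rw [kap, if_pos ⟨hx, hy⟩, cob]

theorem upp_const {w : ℂ} (h : w.im ≠ 0) : ∀ᶠ z in 𝓝 w, upp z = upp w := by
  rcases lt_or_gt_of_ne h with h | h
  · filter_upwards [(isOpen_lt Complex.continuous_im continuous_const).mem_nhds h] with z hz
    have hz' : z.im < 0 := hz
    rw [upp, upp, if_neg (not_le.mpr hz'), if_neg (not_le.mpr h)]
  · filter_upwards [(isOpen_lt continuous_const Complex.continuous_im).mem_nhds h] with z hz
    have hz' : 0 < z.im := hz
    rw [upp, upp, if_pos hz'.le, if_pos (le_of_lt h)]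

theorem kap_zero_of_im {w : ℂ} (h : w.im ≠ 0) : ZeroNear kap w := by
  refine ⟨_, upp_const h, ?_⟩
  intro x hx y hy
  rw [kap]
  split_ifs
  · rw [hx, hy, zmod2_add_self]; rfl
  · rfl

theorem kap_zero_of_re {w : ℂ} (h : 0 < w.re) : ZeroNear kap w := by
  refine ⟨{z | 0 < z.re}, (isOpen_lt continuous_const Complex.continuous_re).mem_nhds h, ?_⟩
  intro x hx y hy
  rw [kap, if_neg]
  · rfl
  · rintro ⟨h1, -⟩
    exact absurd h1 (not_lt.mpr (le_of_lt hx))

theorem kap_coc {w : ℂ} (h : w ≠ 0) : CocNear kap w := by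
  by_cases h1 : w.re < 0
  · exact ⟨upp, kap_neg h1⟩
  · by_cases h2 : w.im = 0
    · refine (kap_zero_of_re ?_).coc
      rcases (not_lt.mp h1).lt_or_eq with h3 | h3
      · exact h3
      · exact absurd (Complex.ext h3.symm (by simpa using h2)) h
    · exact (kap_zero_of_im h2).coc

/-- pull back of cochains by a function continuous at the point -/
theorem AgreeNear.comp {S T : Type*} [TopologicalSpace S] [TopologicalSpace T]
    {c c' : T → T → ZMod 2} {f : S → T} {z : S} (hf : ContinuousAt f z)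
    (h : AgreeNear c c' (f z)) :
    AgreeNear (fun x y => c (f x) (f y)) (fun x y => c' (f x) (f y)) z := by
  obtain ⟨V, hV, h⟩ := h
  exact ⟨f ⁻¹' V, hf hV, fun x hx y hy => h _ hx _ hy⟩

theorem ZeroNear.comp {S T : Type*} [TopologicalSpace S] [TopologicalSpace T]
    {c : T → T → ZMod 2} {f : S → T} {z : S} (hf : ContinuousAt f z)
    (h : ZeroNear c (f z)) : ZeroNear (fun x y => c (f x) (f y)) z := by
  obtain ⟨V, hV, h⟩ := h
  exact ⟨f ⁻¹' V, hf hV, fun x hx y hy => h _ hx _ hy⟩

theorem CocNear.comp {S T : Type*} [TopologicalSpace S] [TopologicalSpace T]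
    {c : T → T → ZMod 2} {f : S → T} {z : S} (hf : ContinuousAt f z)
    (h : CocNear c (f z)) : CocNear (fun x y => c (f x) (f y)) z := by
  obtain ⟨σ, V, hV, h⟩ := h
  exact ⟨σ ∘ f, f ⁻¹' V, hf hV, fun x hx y hy => h _ hx _ hy⟩

/-- the dipole in the plane -/
noncomputable def dip (p q : ℂ) (z z' : ℂ) : ZMod 2 := kap ((z - p) / (z - q)) ((z' - p) / (z' - q))

theorem dip_coc {p q z : ℂ} (hp : z ≠ p) (hq : z ≠ q) : CocNear (dip p q) z := by
  have hc : ContinuousAt (fun z => (z - p) / (z - q)) z :=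
    (continuousAt_id.sub continuousAt_const).div (continuousAt_id.sub continuousAt_const)
      (sub_ne_zero.mpr hq)
  exact CocNear.comp (c := kap) (f := fun z => (z - p) / (z - q)) hc
    (kap_coc (div_ne_zero (sub_ne_zero.mpr hp) (sub_ne_zero.mpr hq)))

/-- real part of the quotient: outside the disc of radius `3/2` it is nonnegative -/
theorem re_quot_nonneg {p q z : ℂ} (hp : ‖p‖ ≤ 1) (hq : ‖q‖ ≤ 1) (hz : 3 / 2 ≤ ‖z‖) :
    0 ≤ ((z - p) / (z - q)).re := by
  rw [Complex.div_re, ← add_div]
  apply div_nonneg _ (Complex.normSq_nonneg _)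
  simp only [Complex.sub_re, Complex.sub_im]
  have hp2 : p.re ^ 2 + p.im ^ 2 ≤ 1 := by
    have := Complex.sq_norm p
    rw [Complex.normSq_apply] at this
    nlinarith [norm_nonneg p]
  have hq2 : q.re ^ 2 + q.im ^ 2 ≤ 1 := by
    have := Complex.sq_norm q
    rw [Complex.normSq_apply] at this
    nlinarith [norm_nonneg q]
  have hz2 : 9 / 4 ≤ z.re ^ 2 + z.im ^ 2 := by
    have := Complex.sq_norm z
    rw [Complex.normSq_apply] at this
    nlinarith [norm_nonneg z]
  -- |z|² - ⟨z, p+q⟩ + ⟨p,q⟩ ≥ |z|² - ⟨z,p+q⟩ + (|p+q|² - 2)/2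
  nlinarith [sq_nonneg (z.re - (p.re + q.re)), sq_nonneg (z.im - (p.im + q.im)),
    sq_nonneg (z.re - (p.re + q.re) / 2), sq_nonneg (z.im - (p.im + q.im) / 2)]

theorem dip_zero {p q z : ℂ} (h : z ∉ segment ℝ p q) : ZeroNear (dip p q) z := by
  have hp : z ≠ p := by
    rintro rfl
    exact h (left_mem_segment ℝ _ _)
  have hq : z ≠ q := by
    rintro rfl
    exact h (right_mem_segment ℝ _ _)
  have hq' : z - q ≠ 0 := sub_ne_zero.mpr hq
  have hc : ContinuousAt (fun z => (z - p) / (z - q)) z :=
    (continuousAt_id.sub continuousAt_const).div (continuousAt_id.sub continuousAt_const) hq'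
  refine ZeroNear.comp (c := kap) (f := fun z => (z - p) / (z - q)) hc ?_
  by_cases h2 : ((z - p) / (z - q)).im = 0
  · apply kap_zero_of_re
    by_contra h3
    apply h
    obtain ⟨t, ht0, ht⟩ : ∃ t : ℝ, 0 ≤ t ∧ (z - p) / (z - q) = -(t : ℂ) := by
      refine ⟨-((z - p) / (z - q)).re, by linarith [not_lt.mp h3], ?_⟩
      apply Complex.ext
      · simp
      · simpa using h2
    have e1 : z - p = -(t : ℂ) * (z - q) := by
      rw [← ht]
      field_simp
    have h1t : (0 : ℝ) < 1 + t := by linarith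
    refine ⟨1 / (1 + t), t / (1 + t), by positivity, by positivity, by field_simp, ?_⟩
    have h1t' : (1 + (t : ℂ)) ≠ 0 := by exact_mod_cast h1t.ne'
    simp only [Complex.real_smul]
    push_cast
    field_simp
    linear_combination -e1
  · exact kap_zero_of_im h2

/-- the point at angle `t` on the circle of radius `ρ` about `p` -/
noncomputable def circ (p : ℂ) (ρ t : ℝ) : ℂ := p + ρ * Complex.exp (t * Complex.I)

theorem continuous_circ (p : ℂ) (ρ : ℝ) : Continuous (circ p ρ) := by
  unfold circ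
  fun_prop

theorem circ_re (p : ℂ) (ρ t : ℝ) : (circ p ρ t).re = p.re + ρ * Real.cos t := by
  simp [circ, Complex.exp_ofReal_mul_I_re]

theorem circ_im (p : ℂ) (ρ t : ℝ) : (circ p ρ t).im = p.im + ρ * Real.sin t := by
  simp [circ, Complex.exp_ofReal_mul_I_im]

theorem norm_circ_sub (p : ℂ) {ρ : ℝ} (hρ : 0 ≤ ρ) (t : ℝ) : ‖circ p ρ t - p‖ = ρ := by
  simp [circ, Complex.norm_exp_ofReal_mul_I, abs_of_nonneg hρ]

/-- the real and imaginary parts of the quotient on the circle about `p` -/
theorem quot_circ {p : ℂ} {ρ r θ : ℝ} (h : 0 < ρ) (hr : ρ < r) (s : ℝ) :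
    ∃ k : ℝ, 0 < k ∧
      ((circ p ρ s - p) / (circ p ρ s - circ p r θ)).re = k * (ρ - r * Real.cos (s - θ)) ∧
      ((circ p ρ s - p) / (circ p ρ s - circ p r θ)).im = - (k * Real.sin (s - θ)) * r := by
  have hw : circ p ρ s - circ p r θ ≠ 0 := by
    intro h0
    have h1 : circ p ρ s - p = circ p r θ - p := by linear_combination h0
    have h2 := congrArg (‖·‖) h1
    simp only [norm_circ_sub p h.le, norm_circ_sub p (h.trans hr).le] at h2
    exact hr.ne h2
  have hN : 0 < Complex.normSq (circ p ρ s - circ p r θ) := Complex.normSq_pos.mpr hw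
  refine ⟨ρ / Complex.normSq (circ p ρ s - circ p r θ), by positivity, ?_, ?_⟩
  · rw [Complex.div_re, ← add_div, div_mul_eq_mul_div]
    congr 1
    simp only [Complex.sub_re, Complex.sub_im, circ_re, circ_im]
    rw [Real.cos_sub]
    have := Real.sin_sq_add_cos_sq s
    linear_combination ρ ^ 2 * this
  · rw [Complex.div_im, ← sub_div]
    have : -(ρ / Complex.normSq (circ p ρ s - circ p r θ) * Real.sin (s - θ)) * r =
        (-(ρ * Real.sin (s - θ) * r)) / Complex.normSq (circ p ρ s - circ p r θ) := by ring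
    rw [this]
    congr 1
    simp only [Complex.sub_re, Complex.sub_im, circ_re, circ_im]
    rw [Real.sin_sub]
    ring

/-- the real and imaginary parts of the inverse quotient on the circle about `q` -/
theorem quot_circ' {q : ℂ} {ρ r θ : ℝ} (h : 0 < ρ) (s : ℝ) :
    ∃ k : ℝ, 0 < k ∧
      ((circ q ρ s - circ q r θ) / (circ q ρ s - q)).re = k * (ρ - r * Real.cos (s - θ)) ∧
      ((circ q ρ s - circ q r θ) / (circ q ρ s - q)).im = (k * Real.sin (s - θ)) * r := by
  have hw : circ q ρ s - q ≠ 0 := by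
    intro h0
    have h2 := congrArg (‖·‖) h0
    simp only [norm_circ_sub q h.le, norm_zero] at h2
    exact h.ne' h2
  have hN : 0 < Complex.normSq (circ q ρ s - q) := Complex.normSq_pos.mpr hw
  refine ⟨ρ / Complex.normSq (circ q ρ s - q), by positivity, ?_, ?_⟩
  · rw [Complex.div_re, ← add_div, div_mul_eq_mul_div]
    congr 1
    simp only [Complex.sub_re, Complex.sub_im, circ_re, circ_im]
    rw [Real.cos_sub]
    have := Real.sin_sq_add_cos_sq s
    linear_combination ρ ^ 2 * this
  · rw [Complex.div_im, ← sub_div]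
    have : (ρ / Complex.normSq (circ q ρ s - q) * Real.sin (s - θ)) * r =
        (ρ * Real.sin (s - θ) * r) / Complex.normSq (circ q ρ s - q) := by ring
    rw [this]
    congr 1
    simp only [Complex.sub_re, Complex.sub_im, circ_re, circ_im]
    rw [Real.sin_sub]
    ring

/-- step functions -/
noncomputable def stepL (θ s : ℝ) : ZMod 2 := if s ≤ θ then 1 else 0

/-- step functions -/
noncomputable def stepR (θ s : ℝ) : ZMod 2 := if θ ≤ s then 1 else 0

theorem stepL_const {θ t : ℝ} (h : t ≠ θ) : ∀ᶠ s in 𝓝 t, stepL θ s = stepL θ t := by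
  rcases lt_or_gt_of_ne h with h | h
  · filter_upwards [Iio_mem_nhds h] with s hs
    rw [stepL, stepL, if_pos (le_of_lt hs), if_pos h.le]
  · filter_upwards [Ioi_mem_nhds h] with s hs
    rw [stepL, stepL, if_neg (not_le.mpr hs), if_neg (not_le.mpr h)]

theorem stepR_const {θ t : ℝ} (h : t ≠ θ) : ∀ᶠ s in 𝓝 t, stepR θ s = stepR θ t := by
  rcases lt_or_gt_of_ne h with h | h
  · filter_upwards [Iio_mem_nhds h] with s hs
    rw [stepR, stepR, if_neg (not_le.mpr hs), if_neg (not_le.mpr h)]
  · filter_upwards [Ioi_mem_nhds h] with s hs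
    rw [stepR, stepR, if_pos (le_of_lt hs), if_pos (le_of_lt h)]

theorem sin_pos_near {θ s : ℝ} (h : |s - θ| < Real.pi) :
    (Real.sin (s - θ) ≤ 0 ↔ s ≤ θ) ∧ (0 ≤ Real.sin (s - θ) ↔ θ ≤ s) := by
  rw [abs_lt] at h
  constructor
  · constructor
    · intro h1
      by_contra h2
      exact absurd (Real.sin_pos_of_pos_of_lt_pi (by linarith [not_le.mp h2]) h.2) (not_lt.mpr h1)
    · intro h1
      exact Real.sin_nonpos_of_nonpos_of_neg_pi_le (by linarith) (by linarith)
  · constructor
    · intro h1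
      by_contra h2
      exact absurd (Real.sin_neg_of_neg_of_neg_pi_lt (by linarith [not_le.mp h2]) (by linarith))
        (not_lt.mpr h1)
    · intro h1
      exact Real.sin_nonneg_of_nonneg_of_le_pi (by linarith) (by linarith)

/-- a general local computation -/
theorem circ_local (f : ℝ → ℂ) (hf : Continuous f) (θ r ρ : ℝ) (hρ : 0 < ρ) (hr : ρ < r)
    (g : ℝ → ℝ) (e : ℝ → ZMod 2)
    (hre : ∀ s, ∃ k : ℝ, 0 < k ∧ (f s).re = k * (ρ - r * Real.cos (s - θ)) ∧
      (f s).im = (k * g s) * r)
    (hg : ∀ s, Real.sin (s - θ) ≠ 0 → g s ≠ 0)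
    (he : ∀ s, |s - θ| < Real.pi → e s = if 0 ≤ g s then 1 else 0)
    (hconst : ∀ t, t ≠ θ → ∀ᶠ s in 𝓝 t, e s = e t) {t : ℝ} (ht : |t - θ| < 2 * Real.pi) :
    ∃ V ∈ 𝓝 t, ∀ s ∈ V, ∀ s' ∈ V, kap (f s) (f s') = e s + e s' := by
  have hr0 : 0 < r := hρ.trans hr
  by_cases h1 : t = θ
  · subst h1
    obtain ⟨k, hk, hk1, hk2⟩ := hre t
    have h2 : (f t).re < 0 := by
      rw [hk1, sub_self, Real.cos_zero]
      nlinarith
    obtain ⟨V, hV, hV'⟩ := kap_neg h2
    refine ⟨f ⁻¹' V ∩ {s | |s - t| < Real.pi}, inter_mem (hf.continuousAt hV) ?_, ?_⟩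
    · apply (isOpen_lt (by fun_prop) continuous_const).mem_nhds
      simp [Real.pi_pos]
    · have key : ∀ s, |s - t| < Real.pi → upp (f s) = e s := by
        intro s hs
        rw [he s hs, upp]
        obtain ⟨k', hk', -, hk3⟩ := hre s
        rw [hk3]
        congr 1
        rw [eq_iff_iff]
        constructor
        · intro h
          by_contra hn
          have := not_le.mp hn
          have : k' * g s * r < 0 := by
            apply mul_neg_of_neg_of_pos _ hr0
            exact mul_neg_of_pos_of_neg hk' this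
          linarith
        · intro h
          positivity
      rintro s ⟨hs1, hs2⟩ s' ⟨hs1', hs2'⟩
      rw [hV' _ hs1 _ hs1', cob, key s hs2, key s' hs2']
  · have hz : ZeroNear kap (f t) := by
      obtain ⟨k, hk, hk1, hk2⟩ := hre t
      by_cases h2 : Real.sin (t - θ) = 0
      · apply kap_zero_of_re
        rw [hk1]
        have h3 : Real.cos (t - θ) = -1 := by
          obtain ⟨n, hn⟩ := Real.sin_eq_zero_iff.mp h2
          have hpi := Real.pi_pos
          have h5 : t - θ ≠ 0 := sub_ne_zero.mpr h1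
          have hn2 : n = 1 ∨ n = -1 := by
            rw [abs_lt] at ht
            have a1 : (n : ℝ) < 2 := by
              by_contra hcon
              have := not_lt.mp hcon
              nlinarith
            have a2 : (-2 : ℝ) < n := by
              by_contra hcon
              have := not_lt.mp hcon
              nlinarith
            have a3 : n ≠ 0 := by
              rintro rfl
              apply h5
              rw [← hn]
              simp
            have a1' : n < 2 := by exact_mod_cast a1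
            have a2' : -2 < n := by exact_mod_cast a2
            omega
          rcases hn2 with rfl | rfl
          · rw [← hn]; simp
          · rw [← hn]; simp
        rw [h3]
        have : 0 < ρ - r * (-1) := by linarith
        positivity
      · apply kap_zero_of_im
        rw [hk2]
        have := hg t h2
        positivity
    obtain ⟨V, hV, hV'⟩ := hz
    refine ⟨f ⁻¹' V ∩ {s | e s = e t}, inter_mem (hf.continuousAt hV) (hconst t h1), ?_⟩
    rintro s ⟨hs1, hs2⟩ s' ⟨hs1', hs2'⟩
    have hs3 : e s = e t := hs2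
    have hs3' : e s' = e t := hs2'
    rw [hV' _ hs1 _ hs1', hs3, hs3', zmod2_add_self]
    rfl

theorem dip_circ {p : ℂ} {ρ r θ : ℝ} (h : 0 < ρ) (hr : ρ < r) {t : ℝ}
    (ht : |t - θ| < 2 * Real.pi) :
    ∃ V ∈ 𝓝 t, ∀ s ∈ V, ∀ s' ∈ V, dip p (circ p r θ) (circ p ρ s) (circ p ρ s') =
      stepL θ s + stepL θ s' := by
  have hne : ∀ s, circ p ρ s - circ p r θ ≠ 0 := by
    intro s h0
    have h1 : circ p ρ s - p = circ p r θ - p := by linear_combination h0
    have h2 := congrArg (‖·‖) h1
    simp only [norm_circ_sub p h.le, norm_circ_sub p (h.trans hr).le] at h2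
    exact hr.ne h2
  refine circ_local (fun s => (circ p ρ s - p) / (circ p ρ s - circ p r θ)) ?_ θ r ρ h hr
    (fun s => - Real.sin (s - θ)) (stepL θ) ?_ ?_ ?_ (fun t ht => stepL_const ht) ht
  · exact Continuous.div (by have := continuous_circ p ρ; fun_prop)
      (by have := continuous_circ p ρ; fun_prop) hne
  · intro s
    obtain ⟨k, hk, h1, h2⟩ := quot_circ (p := p) (θ := θ) h hr s
    exact ⟨k, hk, h1, by rw [h2]; ring⟩
  · intro s hs
    simpa using hs
  · intro s hs
    have := (sin_pos_near hs).1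
    simp only [stepL, Left.nonneg_neg_iff, this]

theorem dip_circ' {q : ℂ} {ρ r θ : ℝ} (h : 0 < ρ) (hr : ρ < r) {t : ℝ}
    (ht : |t - θ| < 2 * Real.pi) :
    ∃ V ∈ 𝓝 t, ∀ s ∈ V, ∀ s' ∈ V, dip (circ q r θ) q (circ q ρ s) (circ q ρ s') =
      stepR θ s + stepR θ s' := by
  have hne : ∀ s, circ q ρ s - q ≠ 0 := by
    intro s h0
    have h2 := congrArg (‖·‖) h0
    simp only [norm_circ_sub q h.le, norm_zero] at h2
    exact h.ne' h2
  refine circ_local (fun s => (circ q ρ s - circ q r θ) / (circ q ρ s - q)) ?_ θ r ρ h hr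
    (fun s => Real.sin (s - θ)) (stepR θ) ?_ ?_ ?_ (fun t ht => stepR_const ht) ht
  · exact Continuous.div (by have := continuous_circ q ρ; fun_prop)
      (by have := continuous_circ q ρ; fun_prop) hne
  · intro s
    exact quot_circ' (q := q) (θ := θ) h s
  · intro s hs
    exact hs
  · intro s hs
    have := (sin_pos_near hs).2
    simp only [stepR, this]

end SurfFib
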