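import Pool.Agent.SurfFib.Coch

/-! # Chart discs -/

open Set Filter Topology Metric

namespace SurfFib

/-- A chart disc of `S`: a chart to `ℂ` whose target contains the closed ball of radius 2. -/
structure Disc (S : Type*) [TopologicalSpace S] where
  /-- the chart -/
  φ : OpenPartialHomeomorph S ℂ
  sub : closedBall (0 : ℂ) 2 ⊆ φ.target

namespace Disc

variable {S : Type*} [TopologicalSpace S] (D : Disc S)

/-- the open disc of radius `r` -/
def ball (r : ℝ) : Set S := D.φ.symm '' Metric.ball 0 r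

/-- the closed disc of radius `r` -/
def cball (r : ℝ) : Set S := D.φ.symm '' Metric.closedBall 0 r

/-- the centre -/
noncomputable def ctr : S := D.φ.symm 0

theorem mem_target {z : ℂ} (h : ‖z‖ ≤ 2) : z ∈ D.φ.target := D.sub (by simpa using h)

theorem right_inv {z : ℂ} (h : ‖z‖ ≤ 2) : D.φ (D.φ.symm z) = z := D.φ.right_inv (D.mem_target h)

theorem mem_source {z : ℂ} (h : ‖z‖ ≤ 2) : D.φ.symm z ∈ D.φ.source :=
  D.φ.map_target (D.mem_target h)

theorem mem_ball_iff {r : ℝ} (hr : r ≤ 2) {x : S} :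
    x ∈ D.ball r ↔ x ∈ D.φ.source ∧ ‖D.φ x‖ < r := by
  constructor
  · rintro ⟨z, hz, rfl⟩
    have h : ‖z‖ < r := by simpa using hz
    have h2 : ‖z‖ ≤ 2 := by linarith
    exact ⟨D.mem_source h2, by rwa [D.right_inv h2]⟩
  · rintro ⟨hx, hn⟩
    exact ⟨D.φ x, by simpa using hn, D.φ.left_inv hx⟩

theorem mem_cball_iff {r : ℝ} (hr : r ≤ 2) {x : S} :
    x ∈ D.cball r ↔ x ∈ D.φ.source ∧ ‖D.φ x‖ ≤ r := by
  constructor
  · rintro ⟨z, hz, rfl⟩
    have h : ‖z‖ ≤ r := by simpa using hz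
    have h2 : ‖z‖ ≤ 2 := by linarith
    exact ⟨D.mem_source h2, by rwa [D.right_inv h2]⟩
  · rintro ⟨hx, hn⟩
    exact ⟨D.φ x, by simpa using hn, D.φ.left_inv hx⟩

theorem ball_subset_cball {r : ℝ} : D.ball r ⊆ D.cball r := image_mono ball_subset_closedBall

theorem ball_mono {r r' : ℝ} (h : r ≤ r') : D.ball r ⊆ D.ball r' := image_mono (ball_subset_ball h)

theorem cball_mono {r r' : ℝ} (h : r ≤ r') : D.cball r ⊆ D.cball r' :=
  image_mono (closedBall_subset_closedBall h)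

theorem cball_subset_ball {r r' : ℝ} (h : r < r') : D.cball r ⊆ D.ball r' :=
  image_mono (closedBall_subset_ball h)

theorem isOpen_ball {r : ℝ} (hr : r ≤ 2) : IsOpen (D.ball r) :=
  D.φ.isOpen_image_symm_of_subset_target Metric.isOpen_ball
    ((ball_subset_closedBall.trans (closedBall_subset_closedBall hr)).trans D.sub)

theorem isCompact_cball {r : ℝ} (hr : r ≤ 2) : IsCompact (D.cball r) :=
  (isCompact_closedBall _ _).image_of_continuousOn (D.φ.continuousOn_symm.mono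
    ((closedBall_subset_closedBall hr).trans D.sub))

theorem isClosed_cball [T2Space S] {r : ℝ} (hr : r ≤ 2) : IsClosed (D.cball r) :=
  (D.isCompact_cball hr).isClosed

theorem ctr_mem {r : ℝ} (hr : 0 < r) : D.ctr ∈ D.ball r := ⟨0, by simpa using hr, rfl⟩

theorem symm_mem_ball {r : ℝ} {z : ℂ} (h : ‖z‖ < r) : D.φ.symm z ∈ D.ball r :=
  ⟨z, by simpa using h, rfl⟩

theorem symm_mem_cball {r : ℝ} {z : ℂ} (h : ‖z‖ ≤ r) : D.φ.symm z ∈ D.cball r :=
  ⟨z, by simpa using h, rfl⟩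

theorem closure_ball [T2Space S] {r : ℝ} (h0 : 0 < r) (hr : r ≤ 2) :
    closure (D.ball r) = D.cball r := by
  apply subset_antisymm
  · exact closure_minimal D.ball_subset_cball (D.isClosed_cball hr)
  · have h1 : ContinuousOn D.φ.symm (closure (Metric.ball 0 r)) :=
      D.φ.continuousOn_symm.mono (by
        rw [_root_.closure_ball 0 h0.ne']
        exact (closedBall_subset_closedBall hr).trans D.sub)
    have h2 := h1.image_closure
    rw [_root_.closure_ball 0 h0.ne'] at h2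
    exact h2

theorem continuousAt {x : S} (h : x ∈ D.ball 2) : ContinuousAt D.φ x :=
  D.φ.continuousAt ((D.mem_ball_iff le_rfl).1 h).1

theorem continuousAt_symm {z : ℂ} (h : ‖z‖ ≤ 2) : ContinuousAt D.φ.symm z :=
  D.φ.continuousAt_symm (D.mem_target h)

/-- scaling a disc -/
noncomputable def scale (r : ℝ) (h0 : 0 < r) (h1 : r ≤ 1) : Disc S where
  φ := D.φ.trans (Homeomorph.toOpenPartialHomeomorph
    (Homeomorph.mulLeft₀ ((r : ℂ)⁻¹) (inv_ne_zero (by exact_mod_cast h0.ne'))))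
  sub := by
    intro z hz
    have hz' : ‖z‖ ≤ 2 := by simpa using hz
    rw [OpenPartialHomeomorph.trans_target]
    refine ⟨by simp, ?_⟩
    have : (r : ℂ) ≠ 0 := by exact_mod_cast h0.ne'
    apply D.mem_target
    simp only [Homeomorph.toOpenPartialHomeomorph_symm_apply, Homeomorph.mulLeft₀_symm_apply, inv_inv]
    rw [norm_mul]
    simp only [Complex.norm_real, Real.norm_eq_abs, abs_of_pos h0]
    nlinarith [norm_nonneg z]

theorem scale_symm (r : ℝ) (h0 : 0 < r) (h1 : r ≤ 1) (z : ℂ) :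
    (D.scale r h0 h1).φ.symm z = D.φ.symm (r * z) := by
  simp [scale]

theorem scale_ctr (r : ℝ) (h0 : 0 < r) (h1 : r ≤ 1) : (D.scale r h0 h1).ctr = D.ctr := by
  simp [ctr, scale_symm]

theorem scale_cball_subset (r : ℝ) (h0 : 0 < r) (h1 : r ≤ 1) (ρ : ℝ) :
    (D.scale r h0 h1).cball ρ ⊆ D.cball (r * ρ) := by
  rintro _ ⟨z, hz, rfl⟩
  rw [scale_symm]
  have hz' : ‖z‖ ≤ ρ := by simpa using hz
  apply D.symm_mem_cball
  rw [norm_mul]
  simp only [Complex.norm_real, Real.norm_eq_abs, abs_of_pos h0]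
  gcongr

/-- small discs about the centre -/
theorem exists_scale {O : Set S} (hO : O ∈ 𝓝 D.ctr) :
    ∃ D' : Disc S, D'.ctr = D.ctr ∧ D'.cball 2 ⊆ O := by
  have h1 : D.φ.symm ⁻¹' O ∈ 𝓝 (0 : ℂ) := D.continuousAt_symm (by simp) hO
  obtain ⟨ε, hε, hsub⟩ := Metric.mem_nhds_iff.1 h1
  refine ⟨D.scale (min 1 (ε / 4)) (by positivity) (min_le_left _ _), D.scale_ctr _ _ _, ?_⟩
  refine (D.scale_cball_subset _ _ _ _).trans ?_
  rintro _ ⟨z, hz, rfl⟩
  apply hsub
  have hz' : ‖z‖ ≤ min 1 (ε / 4) * 2 := by simpa using hz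
  have h2 : min 1 (ε / 4) ≤ ε / 4 := min_le_right _ _
  rw [Metric.mem_ball, dist_zero_right]
  linarith

end Disc

end SurfFib
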