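import Pool.Agent.SurfFib.Coch

/-! # A locally trivial cochain on a compact convex set is uniformly trivial -/

open Set Filter Topology

namespace SurfFib

/-- `c` locally a coboundary on the compact convex set `Y` implies `c` is a coboundary on small
pairs of `Y`. -/
theorem convex_trivial {E : Type*} [NormedAddCommGroup E] [NormedSpace ℝ E] {Y : Set E}
    (hY : IsCompact Y) (hc : Convex ℝ Y) (c : E → E → ZMod 2)
    (h : ∀ z ∈ Y, ∃ V ∈ 𝓝 z, ∃ σ : E → ZMod 2, ∀ x ∈ V ∩ Y, ∀ y ∈ V ∩ Y, c x y = σ x + σ y) :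
    ∃ σ : E → ZMod 2, ∃ ε > 0, ∀ x ∈ Y, ∀ y ∈ Y, dist x y < ε → c x y = σ x + σ y := by
  rcases Y.eq_empty_or_nonempty with rfl | ⟨x₀, hx₀⟩
  · exact ⟨0, 1, one_pos, fun x hx => hx.elim⟩
  -- Lebesgue number
  choose! V hV σ hσ using h
  obtain ⟨ε, hε, hleb⟩ := lebesgue_number_lemma_of_metric (c := fun z : Y => interior (V z)) hY
    (fun z => isOpen_interior)
    (fun z hz => mem_iUnion.mpr ⟨⟨z, hz⟩, mem_interior_iff_mem_nhds.mpr (hV z hz)⟩)
  have hloc : ∀ z ∈ Y, ∃ s : E → ZMod 2, ∀ x ∈ Y, ∀ y ∈ Y, dist x z < ε → dist y z < ε →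
      c x y = s x + s y := by
    intro z hz
    obtain ⟨w, hw⟩ := hleb z hz
    exact ⟨σ w, fun x hx y hy hxz hyz => hσ w w.2 x ⟨interior_subset (hw hxz), hx⟩ y
      ⟨interior_subset (hw hyz), hy⟩⟩
  -- triangle rule
  have htri : ∀ z ∈ Y, ∀ x ∈ Y, ∀ y ∈ Y, ∀ w ∈ Y, dist x z < ε → dist y z < ε → dist w z < ε →
      c x y = c x w + c w y := by
    intro z hz x hx y hy w hw h1 h2 h3
    obtain ⟨s, hs⟩ := hloc z hz
    rw [hs x hx y hy h1 h2, hs x hx w hw h1 h3, hs w hw y hy h3 h2]
    have := zmod2_add_self (s w)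
    calc s x + s y = s x + s y + (s w + s w) := by rw [this, add_zero]
      _ = _ := by ring
  have hsymm : ∀ z ∈ Y, ∀ x ∈ Y, ∀ y ∈ Y, dist x z < ε → dist y z < ε → c x y = c y x := by
    intro z hz x hx y hy h1 h2
    obtain ⟨s, hs⟩ := hloc z hz
    rw [hs x hx y hy h1 h2, hs y hy x hx h2 h1, add_comm]
  -- bounded
  obtain ⟨R, hR⟩ := hY.isBounded.subset_closedBall x₀
  have hR0 : 0 ≤ R := by
    have := hR hx₀
    simpa using this
  obtain ⟨N, hN⟩ := exists_nat_gt (2 * R / ε)
  have hN0 : 0 < (N : ℝ) := lt_of_le_of_lt (by positivity) hN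
  let p : E → ℕ → E := fun x k => x₀ + ((k : ℝ) / N) • (x - x₀)
  have hpY : ∀ x ∈ Y, ∀ k ≤ N, p x k ∈ Y := by
    intro x hx k hk
    have h1 : (k : ℝ) / N ≤ 1 := by
      rw [div_le_one hN0]
      exact_mod_cast hk
    exact hc.add_smul_sub_mem hx₀ hx ⟨by positivity, h1⟩
  have hstep : ∀ x ∈ Y, ∀ k, dist (p x (k + 1)) (p x k) < ε / 2 := by
    intro x hx k
    have h1 : dist x x₀ ≤ R := hR hx
    have h2 : p x (k + 1) - p x k = ((1 : ℝ) / N) • (x - x₀) := by
      simp only [p]
      push_cast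
      rw [add_div, add_smul]
      abel
    rw [dist_eq_norm, h2, norm_smul, Real.norm_of_nonneg (by positivity), ← dist_eq_norm]
    have h3 : 2 * R < N * ε := by
      rw [div_lt_iff₀ hε] at hN
      linarith
    calc 1 / (N : ℝ) * dist x x₀ ≤ 1 / (N : ℝ) * R := by gcongr
      _ = R / N := by ring
      _ < ε / 2 := by
        rw [div_lt_div_iff₀ hN0 (by norm_num)]
        linarith
  have hclose : ∀ x ∈ Y, ∀ y ∈ Y, dist x y < ε / 2 → ∀ k ≤ N, dist (p x k) (p y k) < ε / 2 := by
    intro x hx y hy hxy k hk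
    have h1 : (k : ℝ) / N ≤ 1 := by
      rw [div_le_one hN0]
      exact_mod_cast hk
    have h2 : p x k - p y k = ((k : ℝ) / N) • (x - y) := by
      simp only [p]
      rw [add_sub_add_left_eq_sub, ← smul_sub]
      congr 1
      abel
    rw [dist_eq_norm, h2, norm_smul, Real.norm_of_nonneg (by positivity), ← dist_eq_norm]
    calc (k : ℝ) / N * dist x y ≤ 1 * dist x y := by gcongr
      _ < ε / 2 := by rw [one_mul]; exact hxy
  refine ⟨fun x => ∑ k ∈ Finset.range N, c (p x k) (p x (k + 1)), ε / 2, by positivity, ?_⟩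
  intro x hx y hy hxy
  have key : ∀ m ≤ N, c (p x m) (p y m) =
      ∑ k ∈ Finset.range m, c (p x k) (p x (k + 1)) +
        ∑ k ∈ Finset.range m, c (p y k) (p y (k + 1)) := by
    intro m
    induction m with
    | zero =>
      intro _
      simp only [Finset.range_zero, Finset.sum_empty, add_zero]
      have h0 : p x 0 = x₀ := by simp [p]
      have h0' : p y 0 = x₀ := by simp [p]
      rw [h0, h0']
      obtain ⟨s, hs⟩ := hloc x₀ hx₀
      rw [hs x₀ hx₀ x₀ hx₀ (by simpa using hε) (by simpa using hε), zmod2_add_self]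
    | succ m ih =>
      intro hm
      have hm' : m ≤ N := by omega
      rw [Finset.sum_range_succ, Finset.sum_range_succ]
      have a1 := hpY x hx m hm'
      have a2 := hpY x hx (m + 1) hm
      have b1 := hpY y hy m hm'
      have b2 := hpY y hy (m + 1) hm
      have d1 := hstep x hx m
      have d2 := hstep y hy m
      have d3 := hclose x hx y hy hxy m hm'
      have e0 : dist (p x m) (p x m) < ε := by simpa using hε
      have e1 : dist (p x (m + 1)) (p x m) < ε := by linarith
      have e2 : dist (p y m) (p x m) < ε := by rw [dist_comm]; linarith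
      have e3 : dist (p y (m + 1)) (p x m) < ε := by
        have := dist_triangle (p y (m + 1)) (p y m) (p x m)
        rw [dist_comm (p y m) (p x m)] at this
        linarith
      rw [htri (p x m) a1 (p x (m + 1)) a2 (p y (m + 1)) b2 (p x m) a1 e1 e3 e0,
        htri (p x m) a1 (p x m) a1 (p y (m + 1)) b2 (p y m) b1 e0 e3 e2,
        hsymm (p x m) a1 (p x (m + 1)) a2 (p x m) a1 e1 e0, ih hm']
      ring
  have hfin := key N le_rfl
  have hpx : p x N = x := by
    simp only [p]
    rw [div_self hN0.ne', one_smul]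
    abel
  have hpy : p y N = y := by
    simp only [p]
    rw [div_self hN0.ne', one_smul]
    abel
  rw [hpx, hpy] at hfin
  exact hfin

end SurfFib
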