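import Pool.Agent.SurfFib.NoTriple
import Pool.Agent.SurfFib.Cont

/-! # Fibres of `R̃_K` for compacta on closed surfaces -/

open Set Filter Topology Metric

namespace SurfFib

variable {S : Type*} [TopologicalSpace S]

/-- the standard homeomorphism -/
noncomputable def toC : EuclideanSpace ℝ (Fin 2) ≃ₜ ℂ :=
  Complex.orthonormalBasisOneI.repr.symm.toHomeomorph

theorem hasDiscs [ChartedSpace (EuclideanSpace ℝ (Fin 2)) S] : HasDiscs S := by
  intro p
  let e : OpenPartialHomeomorph S ℂ :=
    (chartAt (EuclideanSpace ℝ (Fin 2)) p).trans toC.toOpenPartialHomeomorph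
  have hp : p ∈ e.source := by
    simp only [e, OpenPartialHomeomorph.trans_source]
    exact ⟨mem_chart_source _ p, by simp⟩
  have htar : e.target ∈ 𝓝 (e p) := e.open_target.mem_nhds (e.map_source hp)
  obtain ⟨ε, hε, hsub⟩ := Metric.mem_nhds_iff.1 htar
  let k : ℝ := ε / 4
  have hk : 0 < k := by positivity
  have hk' : ((k : ℝ) : ℂ)⁻¹ ≠ 0 := inv_ne_zero (by exact_mod_cast hk.ne')
  let h : ℂ ≃ₜ ℂ := (Homeomorph.subRight (e p)).trans (Homeomorph.mulLeft₀ ((k : ℂ)⁻¹) hk')
  have hsymm : ∀ z, h.symm z = k * z + e p := by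
    intro z
    simp [h]
  refine ⟨⟨e.trans h.toOpenPartialHomeomorph, ?_⟩, ?_⟩
  · intro z hz
    have hz' : ‖z‖ ≤ 2 := by simpa using hz
    rw [OpenPartialHomeomorph.trans_target]
    refine ⟨by simp, ?_⟩
    apply hsub
    simp only [Homeomorph.toOpenPartialHomeomorph_symm_apply]
    rw [hsymm, Metric.mem_ball, dist_eq_norm, add_sub_cancel_right, norm_mul, Complex.norm_real,
      Real.norm_of_nonneg hk.le]
    simp only [k]
    nlinarith [norm_nonneg z]
  · simp only [Disc.ctr, OpenPartialHomeomorph.coe_trans_symm,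
      Homeomorph.toOpenPartialHomeomorph_symm_apply, Function.comp_apply]
    rw [hsymm, mul_zero, zero_add]
    exact e.left_inv hp

theorem firstCountable_of_hasDiscs (hS : HasDiscs S) : FirstCountableTopology S := by
  constructor
  intro p
  obtain ⟨D, rfl⟩ := hS p
  have h1 : D.ctr ∈ D.φ.source := D.mem_source (by simp)
  rw [← D.φ.symm_map_nhds_eq h1]
  infer_instance

/-- **Main theorem**: fibres of `R̃_K` are continua for every compactum on a compact surface. -/
theorem fibers_connected [T2Space S] [CompactSpace S]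
    [ChartedSpace (EuclideanSpace ℝ (Fin 2)) S] (K : Set S) (hK : IsCompact K) (x : K) :
    IsCompact {y : K | RTilde x y} ∧ IsConnected {y : K | RTilde x y} := by
  have hS : HasDiscs S := hasDiscs
  haveI : LocallyConnectedSpace S :=
    ChartedSpace.locallyConnectedSpace (EuclideanSpace ℝ (Fin 2)) S
  haveI : FirstCountableTopology S := firstCountable_of_hasDiscs hS
  haveI : CompactSpace K := isCompact_iff_compactSpace.mp hK
  refine fiber_continuum (δ := Disc S) (fun D => Subtype.val ⁻¹' D.ball 1)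
    (fun D => Subtype.val ⁻¹' D.cball 1) (fun D E => Disjoint (D.cball 1) (E.cball 1))
    ?_ ?_ ?_ ?_ ?_ ?_ x
  · intro D
    exact (D.isOpen_ball (by norm_num)).preimage continuous_subtype_val
  · intro D
    exact (D.isClosed_cball (by norm_num)).preimage continuous_subtype_val
  · intro D
    exact preimage_mono D.ball_subset_cball
  · intro D E h
    exact h.preimage _
  · intro p U hU s hs hps
    rw [nhds_induced, mem_comap] at hU
    obtain ⟨U', hU', hUU⟩ := hU
    have hO : U' ∩ ⋂ E ∈ s, (E.cball 1)ᶜ ∈ 𝓝 (p : S) := by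
      refine inter_mem hU' ((biInter_mem hs).mpr fun E hE => ?_)
      exact (E.isClosed_cball (by norm_num)).isOpen_compl.mem_nhds (hps E hE)
    obtain ⟨D, hD1, hD2⟩ := hS.small hO
    have hD3 : D.cball 1 ⊆ D.cball 2 := D.cball_mono (by norm_num)
    refine ⟨D, ?_, ?_, ?_⟩
    · change (p : S) ∈ D.ball 1
      rw [← hD1]
      exact D.ctr_mem one_pos
    · intro y hy
      exact hUU (hD2 (hD3 hy)).1
    · intro E hE
      rw [disjoint_right]
      intro z hz
      exact mem_iInter₂.mp (hD2 (hD3 hz)).2 E hE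
  · intro D₁ D₂ D₃ h12 h13 h23
    rintro ⟨P, hPc, hPconn, hPd, hPo, hPm⟩
    have hcontact : ∀ (D : Disc S) (j : ℕ), Disjoint (P j) (Subtype.val ⁻¹' D.ball 1) →
        (P j ∩ Subtype.val ⁻¹' D.cball 1).Nonempty →
        ∃ w : ℂ, ‖w‖ = 1 ∧ D.φ.symm w ∈ Subtype.val '' (P j) := by
      intro D j hd hne
      obtain ⟨y, hy1, hy2⟩ := hne
      obtain ⟨hy3, hy4⟩ := (D.mem_cball_iff (by norm_num)).1 hy2
      refine ⟨D.φ y, le_antisymm hy4 ?_, ?_⟩
      · by_contra hlt
        exact disjoint_left.mp hd hy1 ((D.mem_ball_iff (by norm_num)).2 ⟨hy3, not_le.mp hlt⟩)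
      · rw [D.φ.left_inv hy3]
        exact ⟨y, hy1, rfl⟩
    have hdisj : ∀ (D : Disc S) (j : ℕ), Disjoint (P j) (Subtype.val ⁻¹' D.ball 1) →
        Disjoint (Subtype.val '' (P j)) (D.ball 1) := by
      intro D j hd
      rw [disjoint_left]
      rintro _ ⟨y, hy, rfl⟩ h
      exact disjoint_left.mp hd hy h
    choose w₁ hw₁ hm₁ using fun j => hcontact D₁ j (hPo j).1 (hPm j).1
    choose w₂ hw₂ hm₂ using fun j => hcontact D₂ j (hPo j).2.1 (hPm j).2.1
    choose w₃ hw₃ hm₃ using fun j => hcontact D₃ j (hPo j).2.2 (hPm j).2.2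
    let A : ℕ → Pod D₁ D₂ D₃ := fun j =>
      { P := Subtype.val '' (P j)
        closed := ((hPc j).image continuous_subtype_val).isClosed
        conn := (hPconn j).isPreconnected.image _ continuous_subtype_val.continuousOn
        w₁ := w₁ j
        w₂ := w₂ j
        w₃ := w₃ j
        n₁ := hw₁ j
        n₂ := hw₂ j
        n₃ := hw₃ j
        m₁ := hm₁ j
        m₂ := hm₂ j
        m₃ := hm₃ j
        d₁ := hdisj D₁ j (hPo j).1
        d₂ := hdisj D₂ j (hPo j).2.1
        d₃ := hdisj D₃ j (hPo j).2.2 }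
    refine no_pods hS h12 h13 h23 A (fun i j hij => ?_)
    change Disjoint (Subtype.val '' (P i)) (Subtype.val '' (P j))
    exact (disjoint_image_iff Subtype.val_injective).mpr (hPd i j hij)

end SurfFib
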