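import Pool.Agent.SurfFib.Classify

/-! # No infinite family of disjoint tripods on a compact surface -/

open Set Filter Topology Metric

namespace SurfFib

variable {S : Type*} [TopologicalSpace S]

theorem segS_symm (D : Disc S) (p q : ℂ) : segS D p q = segS D q p := by
  rw [segS, segS, segment_symm]

theorem isPreconnected_segS (D : Disc S) {p q : ℂ} (hp : ‖p‖ ≤ 2) (hq : ‖q‖ ≤ 2) :
    IsPreconnected (segS D p q) := by
  apply (convex_segment p q).isPreconnected.image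
  refine D.φ.continuousOn_symm.mono ?_
  refine Subset.trans ?_ D.sub
  exact (convex_closedBall (0 : ℂ) 2).segment_subset (by simpa using hp) (by simpa using hq)

theorem isCompact_segment' (p q : ℂ) : IsCompact (segment ℝ p q) := by
  rw [segment_eq_image_lineMap]
  exact isCompact_Icc.image (AffineMap.lineMap_continuous)

theorem isClosed_segS [T2Space S] (D : Disc S) {p q : ℂ} (hp : ‖p‖ ≤ 2) (hq : ‖q‖ ≤ 2) :
    IsClosed (segS D p q) := by
  apply IsCompact.isClosed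
  apply (isCompact_segment' p q).image_of_continuousOn
  refine D.φ.continuousOn_symm.mono ?_
  refine Subset.trans ?_ D.sub
  exact (convex_closedBall (0 : ℂ) 2).segment_subset (by simpa using hp) (by simpa using hq)

theorem segS_radial (D : Disc S) {w : ℂ} (hw : ‖w‖ = 1) :
    segS D 0 w ⊆ D.ball 1 ∪ {D.φ.symm w} := by
  rintro _ ⟨z, hz, rfl⟩
  rw [segment_eq_image] at hz
  obtain ⟨t, ⟨ht0, ht1⟩, rfl⟩ := hz
  simp only [smul_zero, zero_add]
  rcases ht1.lt_or_eq with h | h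
  · left
    apply D.symm_mem_ball
    rw [norm_smul, hw, mul_one, Real.norm_of_nonneg ht0]
    exact h
  · right
    rw [h, one_smul]
    rfl

theorem segS_segment_subset (D : Disc S) {w : ℂ} {t : ℝ} (h0 : 0 ≤ t) (h1 : t ≤ 1) :
    segS D (t • w) w ⊆ segS D 0 w := by
  apply image_mono
  apply (convex_segment (0 : ℂ) w).segment_subset _ (right_mem_segment ℝ _ _)
  rw [segment_eq_image]
  exact ⟨t, ⟨h0, h1⟩, by simp⟩

/-- points of the outer part of a radius -/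
theorem segS_outer (D : Disc S) {w : ℂ} {z : S}
    (hz : z ∈ segS D ((1 / 4 : ℝ) • w) w) :
    ∃ t : ℝ, 1 / 4 ≤ t ∧ t ≤ 1 ∧ z = D.φ.symm (t • w) := by
  obtain ⟨y, hy, rfl⟩ := hz
  rw [segment_eq_image] at hy
  obtain ⟨t, ⟨ht0, ht1⟩, rfl⟩ := hy
  refine ⟨(1 - t) * (1 / 4) + t, by nlinarith, by nlinarith, ?_⟩
  congr 1
  simp only
  rw [add_smul, mul_smul]

/-- Data of a tripod -/
structure Pod (D₁ D₂ D₃ : Disc S) where
  P : Set S
  closed : IsClosed P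
  conn : IsPreconnected P
  w₁ : ℂ
  w₂ : ℂ
  w₃ : ℂ
  n₁ : ‖w₁‖ = 1
  n₂ : ‖w₂‖ = 1
  n₃ : ‖w₃‖ = 1
  m₁ : D₁.φ.symm w₁ ∈ P
  m₂ : D₂.φ.symm w₂ ∈ P
  m₃ : D₃.φ.symm w₃ ∈ P
  d₁ : Disjoint P (D₁.ball 1)
  d₂ : Disjoint P (D₂.ball 1)
  d₃ : Disjoint P (D₃.ball 1)

namespace Pod

variable {D₁ D₂ D₃ : Disc S}

/-- the continuum with the three radii -/
def all (A : Pod D₁ D₂ D₃) : Set S :=
  A.P ∪ segS D₁ 0 A.w₁ ∪ segS D₂ 0 A.w₂ ∪ segS D₃ 0 A.w₃

/-- the connecting set -/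
def Y (A : Pod D₁ D₂ D₃) : Set S :=
  segS D₁ ((1 / 4 : ℝ) • A.w₁) A.w₁ ∪ A.P ∪ segS D₃ 0 A.w₃

theorem disjoint_radial {D : Disc S} {P P' : Set S} {w : ℂ} (hw : ‖w‖ = 1)
    (hd : Disjoint P (D.ball 1)) (hm : D.φ.symm w ∈ P') (hPP : Disjoint P P') :
    Disjoint P (segS D 0 w) := by
  apply Disjoint.mono_right (segS_radial D hw)
  rw [disjoint_union_right]
  exact ⟨hd, disjoint_singleton_right.mpr (fun h => (disjoint_left.mp hPP h) hm)⟩

theorem disjoint_all (A B : Pod D₁ D₂ D₃) (h : Disjoint A.P B.P) : Disjoint A.P B.all := by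
  simp only [all, disjoint_union_right]
  exact ⟨⟨⟨h, disjoint_radial B.n₁ A.d₁ B.m₁ h⟩, disjoint_radial B.n₂ A.d₂ B.m₂ h⟩,
    disjoint_radial B.n₃ A.d₃ B.m₃ h⟩

theorem isClosed_all [T2Space S] (A : Pod D₁ D₂ D₃) : IsClosed A.all := by
  have h0 : ‖(0 : ℂ)‖ ≤ 2 := by simp
  exact ((A.closed.union (isClosed_segS D₁ h0 (by rw [A.n₁]; norm_num))).union
    (isClosed_segS D₂ h0 (by rw [A.n₂]; norm_num))).union
      (isClosed_segS D₃ h0 (by rw [A.n₃]; norm_num))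

theorem Y_subset_all (A : Pod D₁ D₂ D₃) : A.Y ⊆ A.all := by
  rintro z ((h | h) | h)
  · exact Or.inl (Or.inl (Or.inr (segS_segment_subset D₁ (by norm_num) (by norm_num) h)))
  · exact Or.inl (Or.inl (Or.inl h))
  · exact Or.inr h

theorem isPreconnected_Y (A : Pod D₁ D₂ D₃) : IsPreconnected A.Y := by
  have hn : ‖(1 / 4 : ℝ) • A.w₁‖ ≤ 2 := by
    rw [norm_smul, A.n₁]
    norm_num
  apply IsPreconnected.union (D₃.φ.symm A.w₃)
  · exact Or.inr A.m₃
  · exact ⟨_, right_mem_segment ℝ _ _, rfl⟩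
  · apply IsPreconnected.union (D₁.φ.symm A.w₁)
    · exact ⟨_, right_mem_segment ℝ _ _, rfl⟩
    · exact A.m₁
    · exact isPreconnected_segS D₁ hn (by rw [A.n₁]; norm_num)
    · exact A.conn
  · exact isPreconnected_segS D₃ (by simp) (by rw [A.n₃]; norm_num)

theorem ctr_mem_Y (A : Pod D₁ D₂ D₃) : D₃.ctr ∈ A.Y :=
  Or.inr ⟨0, left_mem_segment ℝ _ _, rfl⟩

theorem start_mem_Y (A : Pod D₁ D₂ D₃) : D₁.φ.symm ((1 / 4 : ℝ) • A.w₁) ∈ A.Y :=
  Or.inl (Or.inl ⟨_, left_mem_segment ℝ _ _, rfl⟩)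

/-- `Y` of one tripod avoids the first two radii of a disjoint one -/
theorem Y_avoid (h12 : Disjoint (D₁.cball 1) (D₂.cball 1)) (h13 : Disjoint (D₁.cball 1) (D₃.cball 1))
    (h23 : Disjoint (D₂.cball 1) (D₃.cball 1)) (A B : Pod D₁ D₂ D₃) (h : Disjoint A.P B.P) :
    Disjoint A.Y (segS D₁ 0 B.w₁) ∧ Disjoint A.Y (segS D₂ 0 B.w₂) := by
  have s1 : segS D₁ 0 B.w₁ ⊆ D₁.cball 1 := segS_subset D₁ (by simp) B.n₁.le
  have s2 : segS D₂ 0 B.w₂ ⊆ D₂.cball 1 := segS_subset D₂ (by simp) B.n₂.le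
  have s3 : segS D₃ 0 A.w₃ ⊆ D₃.cball 1 := segS_subset D₃ (by simp) A.n₃.le
  have s1' : segS D₁ ((1 / 4 : ℝ) • A.w₁) A.w₁ ⊆ D₁.cball 1 :=
    (segS_segment_subset D₁ (by norm_num) (by norm_num)).trans (segS_subset D₁ (by simp) A.n₁.le)
  constructor
  · simp only [Y, disjoint_union_left]
    refine ⟨⟨?_, disjoint_radial B.n₁ A.d₁ B.m₁ h⟩, (h13.mono s1 s3).symm⟩
    rw [disjoint_left]
    intro z hz hz'
    obtain ⟨t, ht, ht1, rfl⟩ := segS_outer D₁ hz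
    obtain ⟨y, hy, hyz⟩ := hz'
    rw [segment_eq_image] at hy
    obtain ⟨t', ⟨ht0', ht1'⟩, rfl⟩ := hy
    simp only [smul_zero, zero_add] at hyz
    have n1 : ‖t • A.w₁‖ = t := by rw [norm_smul, A.n₁, mul_one, Real.norm_of_nonneg (by linarith)]
    have n2 : ‖t' • B.w₁‖ = t' := by rw [norm_smul, B.n₁, mul_one, Real.norm_of_nonneg ht0']
    have h1 := congrArg D₁.φ hyz
    rw [D₁.right_inv (by rw [n2]; linarith), D₁.right_inv (by rw [n1]; linarith)] at h1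
    have h2 : t' = t := by rw [← n1, ← n2, h1]
    rw [h2] at h1
    have h3 : B.w₁ = A.w₁ := smul_right_injective ℂ (by linarith : t ≠ 0) h1
    have h4 := A.m₁
    rw [← h3] at h4
    exact (disjoint_left.mp h h4) B.m₁
  · simp only [Y, disjoint_union_left]
    exact ⟨⟨h12.mono s1' s2, disjoint_radial B.n₂ A.d₂ B.m₂ h⟩, (h23.mono s2 s3).symm⟩

end Pod

/-- the region on which the classes are compared -/
def regM (D₁ D₂ : Disc S) : Set S := (D₁.ball (1 / 8) ∪ D₂.ball (1 / 8))ᶜ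

theorem Pod.Y_subset_M {D₁ D₂ D₃ : Disc S} (h12 : Disjoint (D₁.cball 1) (D₂.cball 1))
    (h13 : Disjoint (D₁.cball 1) (D₃.cball 1))
    (h23 : Disjoint (D₂.cball 1) (D₃.cball 1)) (A : Pod D₁ D₂ D₃) : A.Y ⊆ regM D₁ D₂ := by
  have b1 : D₁.ball (1 / 8) ⊆ D₁.ball 1 := D₁.ball_mono (by norm_num)
  have b2 : D₂.ball (1 / 8) ⊆ D₂.ball 1 := D₂.ball_mono (by norm_num)
  rintro z ((h | h) | h)
  · have h' : z ∈ D₁.cball 1 := (segS_segment_subset D₁ (by norm_num) (by norm_num)).trans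
      (segS_subset D₁ (by simp) A.n₁.le) h
    rintro (h1 | h1)
    · obtain ⟨t, ht, ht1, rfl⟩ := segS_outer D₁ h
      have n1 : ‖t • A.w₁‖ = t := by
        rw [norm_smul, A.n₁, mul_one, Real.norm_of_nonneg (by linarith)]
      have h2 := ((D₁.mem_ball_iff (by norm_num)).1 h1).2
      rw [D₁.right_inv (by rw [n1]; linarith), n1] at h2
      linarith
    · exact disjoint_left.mp h12 h' (D₂.ball_subset_cball (b2 h1))
  · rintro (h1 | h1)
    · exact disjoint_left.mp A.d₁ h (b1 h1)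
    · exact disjoint_left.mp A.d₂ h (b2 h1)
  · have h' : z ∈ D₃.cball 1 := segS_subset D₃ (by simp) A.n₃.le h
    rintro (h1 | h1)
    · exact disjoint_left.mp h13 (D₁.ball_subset_cball (b1 h1)) h'
    · exact disjoint_left.mp h23 (D₂.ball_subset_cball (b2 h1)) h'

/-- arc cochains -/
theorem exists_arc [T2Space S] (hS : HasDiscs S) {D₁ D₂ : Disc S} {N : Set S} (hN : IsOpen N)
    (hNc : IsPreconnected N) {w₁ w₂ : ℂ} (h1 : ‖w₁‖ = 1) (h2 : ‖w₂‖ = 1)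
    (hp : D₁.φ.symm w₁ ∈ N) (hp' : D₂.φ.symm w₂ ∈ N) (hne : D₁.φ.symm w₁ ≠ D₂.φ.symm w₂)
    (ha : D₁.ctr ∉ N) (hb : D₂.ctr ∉ N) :
    ∃ c : S → S → ZMod 2, (∀ z, z ≠ D₁.ctr → z ≠ D₂.ctr → CocNear c z) ∧
      ∀ z ∉ N, AgreeNear c (dipS D₁ 0 w₁ + dipS D₂ w₂ 0) z := by
  set p := D₁.φ.symm w₁ with hpdef
  set p' := D₂.φ.symm w₂ with hpdef'
  have hw1 : (0 : ℂ) ≠ w₁ := by
    rintro rfl
    simp at h1
  have hw2 : w₂ ≠ 0 := by
    rintro rfl
    simp at h2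
  have hpa : p ≠ D₁.ctr := fun h => ha (h ▸ hp)
  have hpb : p ≠ D₂.ctr := fun h => hb (h ▸ hp)
  have hpa' : p' ≠ D₁.ctr := fun h => ha (h ▸ hp')
  have hpb' : p' ≠ D₂.ctr := fun h => hb (h ▸ hp')
  obtain ⟨c₀, hc₀⟩ := connect hS hN hNc hp hp' hne
  have t1c : ∀ z, z ≠ D₁.ctr → z ≠ p → CocNear (dipS D₁ 0 w₁) z := fun z hz1 hz2 =>
    dipS_coc D₁ (by simp) h1.le hz1 hz2
  have t2c : ∀ z, z ≠ p' → z ≠ D₂.ctr → CocNear (dipS D₂ w₂ 0) z := fun z hz1 hz2 =>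
    dipS_coc D₂ h2.le (by simp) hz1 hz2
  have t1o : Odd (dipS D₁ 0 w₁) p := dipS_odd_right D₁ (by rw [h1]; norm_num) hw1
  have t2o : Odd (dipS D₂ w₂ 0) p' := dipS_odd_left D₂ (by rw [h2]; norm_num) hw2
  have hO1 : N ∩ {p'}ᶜ ∈ 𝓝 p := inter_mem (hN.mem_nhds hp)
    (isOpen_compl_singleton.mem_nhds hne)
  obtain ⟨c₁, h11, h12⟩ := patch hS hO1 (dipS D₁ 0 w₁) c₀
    (fun z hz hzp => t1c z (fun h => ha (h ▸ hz.1)) hzp)
    (fun z hz hzp => hc₀.coc z hzp hz.2) t1o hc₀.left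
  have o1 : Odd c₁ p' := by
    refine Odd.congr (?_ : Odd (dipS D₁ 0 w₁ + c₀) p') (h12 p' (fun h => h.2 rfl)).symm
    rw [add_comm]
    exact hc₀.right.add_coc (t1c p' hpa' hne.symm)
  obtain ⟨c₂, h21, h22⟩ := patch hS (hN.mem_nhds hp') c₁ (dipS D₂ w₂ 0)
    (fun z hz hzp => h11 z ⟨hz, hzp⟩)
    (fun z hz hzp => t2c z hzp (fun h => hb (h ▸ hz))) o1 t2o
  have hout : ∀ z ∉ N, AgreeNear c₂ (dipS D₁ 0 w₁ + dipS D₂ w₂ 0) z := by
    intro z hz
    have e1 := h12 z (fun h => hz h.1)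
    have e2 := (AgreeNear.refl (dipS D₁ 0 w₁) z).add (hc₀.zero z hz)
    rw [add_zero] at e2
    exact (h22 z hz).trans ((e1.trans e2).add (AgreeNear.refl _ z))
  refine ⟨c₂, fun z hza hzb => ?_, hout⟩
  by_cases hz : z ∈ N
  · exact h21 z hz
  · refine ((t1c z hza ?_).add (t2c z ?_ hzb)).congr (hout z hz).symm
    · rintro rfl
      exact hz hp
    · rintro rfl
      exact hz hp'

/-- the arc cochains of a finite family of tripods -/
theorem exists_arcs [T2Space S] [LocallyConnectedSpace S] (hS : HasDiscs S) {D₁ D₂ D₃ : Disc S}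
    (h12 : Disjoint (D₁.cball 1) (D₂.cball 1))
    (h13 : Disjoint (D₁.cball 1) (D₃.cball 1))
    (h23 : Disjoint (D₂.cball 1) (D₃.cball 1))
    {m : ℕ} (A : Fin m → Pod D₁ D₂ D₃) (hA : ∀ i j, i ≠ j → Disjoint (A i).P (A j).P) (i : Fin m) :
    ∃ c : S → S → ZMod 2, (∀ z, z ≠ D₁.ctr → z ≠ D₂.ctr → CocNear c z) ∧
      (∀ k, k ≠ i → ∀ z ∈ (A k).Y, ZeroNear c z) ∧
      ∀ z ∈ D₁.cball (1 / 2), AgreeNear c (dipS D₁ 0 (A i).w₁) z := by
  let Q : Set S := D₁.cball (1 / 2) ∪ D₂.cball (1 / 2) ∪ ⋃ k ∈ {k : Fin m | k ≠ i}, (A k).all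
  have hQ : IsClosed Q := ((D₁.isClosed_cball (by norm_num)).union
    (D₂.isClosed_cball (by norm_num))).union
    ((Set.toFinite _).isClosed_biUnion fun k _ => (A k).isClosed_all)
  have hPQ : (A i).P ⊆ Qᶜ := by
    intro z hz
    rintro ((h | h) | h)
    · exact disjoint_left.mp (A i).d₁ hz (D₁.cball_subset_ball (by norm_num) h)
    · exact disjoint_left.mp (A i).d₂ hz (D₂.cball_subset_ball (by norm_num) h)
    · obtain ⟨k, hk, hzk⟩ := mem_iUnion₂.mp h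
      exact disjoint_left.mp ((A i).disjoint_all (A k) (hA i k (Ne.symm hk))) hz hzk
  set p := D₁.φ.symm (A i).w₁ with hp
  set p' := D₂.φ.symm (A i).w₂ with hp'
  let N := connectedComponentIn Qᶜ p
  have hN : IsOpen N := hQ.isOpen_compl.connectedComponentIn
  have hNc : IsPreconnected N := isPreconnected_connectedComponentIn
  have hNQ : ∀ z ∈ Q, z ∉ N := fun z hz h => connectedComponentIn_subset _ _ h hz
  have hpN : p ∈ N := mem_connectedComponentIn (hPQ (A i).m₁)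
  have hp'N : p' ∈ N := (A i).conn.subset_connectedComponentIn (A i).m₁ hPQ (A i).m₂
  have hne : p ≠ p' := by
    intro h
    have h1 : p ∈ D₁.cball 1 := D₁.symm_mem_cball (A i).n₁.le
    have h2 : p' ∈ D₂.cball 1 := D₂.symm_mem_cball (A i).n₂.le
    rw [← h] at h2
    exact disjoint_left.mp h12 h1 h2
  obtain ⟨c, hc1, hc2⟩ := exists_arc hS hN hNc (A i).n₁ (A i).n₂ hpN hp'N hne
    (hNQ _ (Or.inl (Or.inl (D₁.ball_subset_cball (D₁.ctr_mem (by norm_num))))))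
    (hNQ _ (Or.inl (Or.inr (D₂.ball_subset_cball (D₂.ctr_mem (by norm_num))))))
  have n1 : ‖(A i).w₁‖ ≤ 1 := (A i).n₁.le
  have n2 : ‖(A i).w₂‖ ≤ 1 := (A i).n₂.le
  refine ⟨c, hc1, ?_, ?_⟩
  · intro k hk z hz
    have hzN : z ∉ N := hNQ z (Or.inr (mem_iUnion₂.mpr ⟨k, hk, (A k).Y_subset_all hz⟩))
    obtain ⟨y1, y2⟩ := Pod.Y_avoid h12 h13 h23 (A k) (A i) (hA k i hk)
    have e1 : ZeroNear (dipS D₁ 0 (A i).w₁) z :=
      dipS_zero D₁ (by simp) n1 (disjoint_left.mp y1 hz)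
    have e2 : ZeroNear (dipS D₂ (A i).w₂ 0) z := by
      apply dipS_zero D₂ n2 (by simp)
      rw [segS_symm]
      exact disjoint_left.mp y2 hz
    exact (hc2 z hzN).trans (e1.add e2)
  · intro z hz
    have hzN : z ∉ N := hNQ z (Or.inl (Or.inl hz))
    have e2 : ZeroNear (dipS D₂ (A i).w₂ 0) z := by
      apply dipS_zero D₂ n2 (by simp)
      rw [segS_symm]
      intro h
      exact disjoint_left.mp h12 (D₁.cball_mono (by norm_num) hz)
        (segS_subset D₂ (by simp) n2 h)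
    have e3 := (AgreeNear.refl (dipS D₁ 0 (A i).w₁) z).add e2
    rw [add_zero] at e3
    exact (hc2 z hzN).trans e3

theorem circ_zero (t ρ : ℝ) : circ 0 ρ t = ρ • circ 0 1 t := by
  simp [circ]

/-- local behaviour on the circle of radius `1/4` -/
theorem arc_circ {D₁ : Disc S} {c : S → S → ZMod 2} {θ : ℝ}
    (hc : ∀ z ∈ D₁.cball (1 / 2), AgreeNear c (dipS D₁ 0 (circ 0 1 θ)) z) {t : ℝ}
    (ht : |t - θ| < 2 * Real.pi) :
    ∃ V ∈ 𝓝 t, ∀ s ∈ V, ∀ s' ∈ V,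
      c (D₁.φ.symm (circ 0 (1 / 4) s)) (D₁.φ.symm (circ 0 (1 / 4) s')) =
        stepL θ s + stepL θ s' := by
  have hn : ∀ s, ‖circ 0 (1 / 4) s‖ ≤ 1 / 4 := fun s => by
    have := norm_circ_le 0 (by norm_num : (0 : ℝ) ≤ 1 / 4) s
    simpa using this
  obtain ⟨V, hV, hV'⟩ := dip_circ (p := 0) (θ := θ) (ρ := 1 / 4) (r := 1) (by norm_num)
    (by norm_num) ht
  obtain ⟨U, hU, hU'⟩ := hc (D₁.φ.symm (circ 0 (1 / 4) t))
    (D₁.symm_mem_cball ((hn t).trans (by norm_num)))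
  have hcont : ContinuousAt (fun s => D₁.φ.symm (circ 0 (1 / 4) s)) t :=
    ContinuousAt.comp (f := fun s => circ 0 (1 / 4) s)
      (D₁.continuousAt_symm ((hn t).trans (by norm_num))) (continuous_circ 0 (1 / 4)).continuousAt
  refine ⟨V ∩ (fun s => D₁.φ.symm (circ 0 (1 / 4) s)) ⁻¹' U, inter_mem hV (hcont hU), ?_⟩
  rintro s ⟨hs1, hs2⟩ s' ⟨hs1', hs2'⟩
  rw [hU' _ hs2 _ hs2', dipS_symm D₁ _ _ ((hn s).trans_lt (by norm_num))
    ((hn s').trans_lt (by norm_num)), hV' s hs1 s' hs1']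

/-- the three-angles argument -/
theorem three_angles {D₁ D₂ D₃ : Disc S}
    (h12 : Disjoint (D₁.cball 1) (D₂.cball 1))
    (h13 : Disjoint (D₁.cball 1) (D₃.cball 1))
    (h23 : Disjoint (D₂.cball 1) (D₃.cball 1))
    (A B C : Pod D₁ D₂ D₃) {θ₁ θ₂ θ₃ : ℝ} (e1 : A.w₁ = circ 0 1 θ₁) (e2 : B.w₁ = circ 0 1 θ₂)
    (e3 : C.w₁ = circ 0 1 θ₃) (l12 : θ₁ < θ₂) (l23 : θ₂ < θ₃) (l1 : -Real.pi < θ₁)
    (l3 : θ₃ ≤ Real.pi) (a b c : S → S → ZMod 2)
    (haB : ∀ z ∈ B.Y, ZeroNear a z) (haC : ∀ z ∈ C.Y, ZeroNear a z)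
    (hbA : ∀ z ∈ A.Y, ZeroNear b z) (hbC : ∀ z ∈ C.Y, ZeroNear b z)
    (hcA : ∀ z ∈ A.Y, ZeroNear c z) (hcB : ∀ z ∈ B.Y, ZeroNear c z)
    (ha : ∀ z ∈ D₁.cball (1 / 2), AgreeNear a (dipS D₁ 0 A.w₁) z)
    (hb : ∀ z ∈ D₁.cball (1 / 2), AgreeNear b (dipS D₁ 0 B.w₁) z)
    (hc : ∀ z ∈ D₁.cball (1 / 2), AgreeNear c (dipS D₁ 0 C.w₁) z)
    (f g h : S → ZMod 2)
    (hf : ∀ z ∈ regM D₁ D₂, AgreeNear (a + b) (cob f) z)
    (hg : ∀ z ∈ regM D₁ D₂, AgreeNear (a + c) (cob g) z)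
    (hh : ∀ z ∈ regM D₁ D₂, AgreeNear (b + c) (cob h) z) : False := by
  have hpi := Real.pi_pos
  rw [e1] at ha
  rw [e2] at hb
  rw [e3] at hc
  -- the arc
  let γ : ℝ → S := fun t => D₁.φ.symm (circ 0 (1 / 4) t)
  have hn : ∀ s, ‖circ 0 (1 / 4) s‖ = 1 / 4 := fun s => by
    have := norm_circ_sub 0 (by norm_num : (0 : ℝ) ≤ 1 / 4) s
    simpa using this
  have hγM : ∀ t, γ t ∈ regM D₁ D₂ := by
    intro t
    rintro (h1 | h1)
    · have h2 := ((D₁.mem_ball_iff (by norm_num)).1 h1).2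
      simp only [γ] at h2
      rw [D₁.right_inv (by rw [hn]; norm_num), hn] at h2
      norm_num at h2
    · have h2 : γ t ∈ D₁.cball 1 := D₁.symm_mem_cball (by rw [hn]; norm_num)
      exact disjoint_left.mp h12 h2 (D₂.cball_mono (by norm_num) (D₂.ball_subset_cball h1))
  have hγc : Continuous γ := by
    rw [continuous_iff_continuousAt]
    intro t
    exact ContinuousAt.comp (f := fun s => circ 0 (1 / 4) s)
      (D₁.continuousAt_symm (by rw [hn]; norm_num)) (continuous_circ 0 (1 / 4)).continuousAt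
  have hconst : ∀ (u v : S → S → ZMod 2) (α β : ℝ) (F : S → ZMod 2),
      (∀ z ∈ D₁.cball (1 / 2), AgreeNear u (dipS D₁ 0 (circ 0 1 α)) z) →
      (∀ z ∈ D₁.cball (1 / 2), AgreeNear v (dipS D₁ 0 (circ 0 1 β)) z) →
      θ₁ ≤ α → α ≤ θ₃ → θ₁ ≤ β → β ≤ θ₃ → (∀ z ∈ regM D₁ D₂, AgreeNear (u + v) (cob F) z) →
      ∀ s ∈ Icc θ₁ θ₃, ∀ s' ∈ Icc θ₁ θ₃,
        F (γ s) + (stepL α s + stepL β s) = F (γ s') + (stepL α s' + stepL β s') := by
    intro u v α β F hu hv a1 a2 b1 b2 hF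
    refine path_const isPreconnected_Icc γ hγc.continuousOn (u + v)
      (fun s => stepL α s + stepL β s) ?_ F (fun t _ => hF _ (hγM t))
    intro t ht
    obtain ⟨V, hV, hV'⟩ := arc_circ hu (t := t) (by
      rw [abs_lt]; constructor <;> [linarith [ht.1, ht.2]; linarith [ht.1, ht.2]])
    obtain ⟨V', hV'1, hV'2⟩ := arc_circ hv (t := t) (by
      rw [abs_lt]; constructor <;> [linarith [ht.1, ht.2]; linarith [ht.1, ht.2]])
    refine ⟨V ∩ V', mem_nhdsWithin_of_mem_nhds (inter_mem hV hV'1), ?_⟩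
    rintro s ⟨hs1, hs2⟩ s' ⟨hs1', hs2'⟩
    have h1 := hV' s hs1 s' hs1'
    have h2 := hV'2 s hs2 s' hs2'
    simp only [Pi.add_apply, γ]
    rw [h1, h2]
    ring
  -- constancy on the sets Y
  have hY : ∀ (X : Pod D₁ D₂ D₃) (u v : S → S → ZMod 2) (F : S → ZMod 2),
      (∀ z ∈ X.Y, ZeroNear u z) → (∀ z ∈ X.Y, ZeroNear v z) →
      (∀ z ∈ regM D₁ D₂, AgreeNear (u + v) (cob F) z) →
      F (D₁.φ.symm ((1 / 4 : ℝ) • X.w₁)) = F D₃.ctr := by
    intro X u v F hu hv hF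
    have := path_const X.isPreconnected_Y id continuousOn_id (u + v) 0 (by
      intro z hz
      obtain ⟨V, hV, hV'⟩ := (hu z hz).add (hv z hz)
      refine ⟨V, mem_nhdsWithin_of_mem_nhds hV, fun s hs s' hs' => ?_⟩
      simp only [id]
      rw [hV' s hs s' hs']
      simp) F (fun t ht => hF _ (X.Y_subset_M h12 h13 h23 ht)) _ X.start_mem_Y _ X.ctr_mem_Y
    simpa using this
  have hγ : ∀ θ, γ θ = D₁.φ.symm ((1 / 4 : ℝ) • circ 0 1 θ) := fun θ => by
    simp only [γ]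
    rw [circ_zero]
  have A1 := hY A b c h hbA hcA hh
  have B1 := hY B a c g haB hcB hg
  have C1 := hY C a b f haC hbC hf
  rw [e1, ← hγ] at A1
  rw [e2, ← hγ] at B1
  rw [e3, ← hγ] at C1
  obtain ⟨t, ht1, ht2⟩ : ∃ t, θ₁ < t ∧ t < θ₂ := exists_between l12
  have F1 := hconst a b θ₁ θ₂ f ha hb le_rfl (by linarith) l12.le l23.le hf t
    ⟨ht1.le, by linarith⟩ θ₃ ⟨by linarith, le_rfl⟩
  have G1 := hconst a c θ₁ θ₃ g ha hc le_rfl (by linarith) (by linarith) le_rfl hg t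
    ⟨ht1.le, by linarith⟩ θ₂ ⟨l12.le, l23.le⟩
  have H1 := hconst b c θ₂ θ₃ h hb hc l12.le l23.le (by linarith) le_rfl hh t
    ⟨ht1.le, by linarith⟩ θ₁ ⟨le_rfl, by linarith⟩
  simp only [stepL] at F1 G1 H1
  rw [if_neg (by linarith), if_pos (by linarith), if_neg (by linarith), if_neg (by linarith),
    C1] at F1
  rw [if_neg (by linarith), if_pos (by linarith), if_neg (by linarith), if_pos (by linarith),
    B1] at G1
  rw [if_pos (by linarith), if_pos (by linarith), if_pos (by linarith), if_pos (by linarith),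
    A1] at H1
  -- the sum
  have hsum : ∀ z ∈ regM D₁ D₂, AgreeNear (0 + 0) (cob (f + g + h)) z := by
    intro z hz
    have h1 := ((hf z hz).add (hg z hz)).add (hh z hz)
    rw [← cob_add, ← cob_add] at h1
    have h2 : a + b + (a + c) + (b + c) = 0 + 0 := by
      have : a + b + (a + c) + (b + c) = (a + a) + (b + b) + (c + c) := by abel
      rw [this, coch_add_self a, coch_add_self b, coch_add_self c]
      simp
    rw [h2] at h1
    exact h1
  have K1 := hY A 0 0 (f + g + h) (fun z _ => AgreeNear.refl 0 z) (fun z _ => AgreeNear.refl 0 z) hsum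
  rw [e1, ← hγ] at K1
  have K2 := path_const (isPreconnected_Icc (a := θ₁) (b := θ₃)) γ hγc.continuousOn (0 + 0) 0 (by
      intro z hz
      exact ⟨univ, univ_mem, fun s hs s' hs' => by simp⟩) (f + g + h)
      (fun t ht => hsum _ (hγM t)) t ⟨ht1.le, by linarith⟩ θ₁ ⟨le_rfl, by linarith⟩
  simp only [Pi.add_apply, Pi.zero_apply, add_zero] at K1 K2
  rw [K1] at K2
  simp only [zero_add, add_zero, zmod2_add_self] at F1 G1 H1
  have h4 : g (γ t) = g D₃.ctr := add_right_cancel G1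
  rw [h4, H1] at K2
  have h5 : f (γ t) = f D₃.ctr := add_right_cancel (add_right_cancel K2)
  rw [h5] at F1
  have h6 : (1 : ZMod 2) = 0 := by
    have : f D₃.ctr + 1 = f D₃.ctr + 0 := by rw [F1, add_zero]
    exact add_left_cancel this
  exact one_ne_zero h6

theorem exists_theta {w : ℂ} (h : ‖w‖ = 1) : w = circ 0 1 (Complex.arg w) := by
  have := Complex.norm_mul_exp_arg_mul_I w
  rw [h] at this
  simp only [circ]
  rw [zero_add]
  exact this.symm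

theorem no_pods [T2Space S] [CompactSpace S] [LocallyConnectedSpace S] (hS : HasDiscs S)
    {D₁ D₂ D₃ : Disc S}
    (h12 : Disjoint (D₁.cball 1) (D₂.cball 1))
    (h13 : Disjoint (D₁.cball 1) (D₃.cball 1))
    (h23 : Disjoint (D₂.cball 1) (D₃.cball 1))
    (A : ℕ → Pod D₁ D₂ D₃) (hA : ∀ i j, i ≠ j → Disjoint (A i).P (A j).P) : False := by
  have hM : IsCompact (regM D₁ D₂) := (((D₁.isOpen_ball (by norm_num)).union
    (D₂.isOpen_ball (by norm_num))).isClosed_compl).isCompact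
  have hW : IsOpen ({D₁.ctr}ᶜ ∩ {D₂.ctr}ᶜ : Set S) :=
    isOpen_compl_singleton.inter isOpen_compl_singleton
  have hMW : regM D₁ D₂ ⊆ {D₁.ctr}ᶜ ∩ {D₂.ctr}ᶜ := by
    intro z hz
    constructor
    · rintro rfl
      exact hz (Or.inl (D₁.ctr_mem (by norm_num)))
    · rintro rfl
      exact hz (Or.inr (D₂.ctr_mem (by norm_num)))
  obtain ⟨n, inv, hinv⟩ := classify hS hM hW hMW
  let m := 2 * n + 1
  let A' : Fin m → Pod D₁ D₂ D₃ := fun i => A i
  have hA' : ∀ i j, i ≠ j → Disjoint (A' i).P (A' j).P := fun i j hij =>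
    hA i j (fun h => hij (Fin.ext h))
  choose c hc1 hc2 hc3 using fun i : Fin m => exists_arcs hS h12 h13 h23 A' hA' i
  obtain ⟨v, -, hv⟩ := Finset.exists_lt_card_fiber_of_mul_lt_card_of_maps_to
    (s := (Finset.univ : Finset (Fin m))) (t := (Finset.univ : Finset (Fin n)))
    (f := fun i => inv (c i)) (n := 2) (fun _ _ => Finset.mem_univ _) (by
      simp only [Finset.card_univ, Fintype.card_fin]
      omega)
  obtain ⟨i, hi, j, hj, k, hk, hij, hik, hjk⟩ := Finset.two_lt_card.mp hv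
  simp only [Finset.mem_filter, Finset.mem_univ, true_and] at hi hj hk
  -- core
  have core : ∀ i j k : Fin m, i ≠ j → i ≠ k → j ≠ k → inv (c i) = v → inv (c j) = v →
      inv (c k) = v → Complex.arg (A' i).w₁ < Complex.arg (A' j).w₁ →
      Complex.arg (A' j).w₁ < Complex.arg (A' k).w₁ → False := by
    intro i j k hij hik hjk hi hj hk l1 l2
    obtain ⟨f, hf⟩ := hinv (c i) (c j) (fun z hz => hc1 i z hz.1 hz.2)
      (fun z hz => hc1 j z hz.1 hz.2) (hi.trans hj.symm)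
    obtain ⟨g, hg⟩ := hinv (c i) (c k) (fun z hz => hc1 i z hz.1 hz.2)
      (fun z hz => hc1 k z hz.1 hz.2) (hi.trans hk.symm)
    obtain ⟨h, hh⟩ := hinv (c j) (c k) (fun z hz => hc1 j z hz.1 hz.2)
      (fun z hz => hc1 k z hz.1 hz.2) (hj.trans hk.symm)
    exact three_angles h12 h13 h23 (A' i) (A' j) (A' k) (exists_theta (A' i).n₁)
      (exists_theta (A' j).n₁) (exists_theta (A' k).n₁) l1 l2 (Complex.neg_pi_lt_arg _)
      (Complex.arg_le_pi _) (c i) (c j) (c k) (hc2 i j hij.symm) (hc2 i k hik.symm)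
      (hc2 j i hij) (hc2 j k hjk.symm) (hc2 k i hik) (hc2 k j hjk) (hc3 i) (hc3 j) (hc3 k)
      f g h hf hg hh
  have hne : ∀ i j : Fin m, i ≠ j → Complex.arg (A' i).w₁ ≠ Complex.arg (A' j).w₁ := by
    intro i j hij h
    have h1 : (A' i).w₁ = (A' j).w₁ := by
      rw [exists_theta (A' i).n₁, exists_theta (A' j).n₁, h]
    have h2 := (A' i).m₁
    rw [h1] at h2
    exact disjoint_left.mp (hA' i j hij) h2 (A' j).m₁
  rcases lt_or_gt_of_ne (hne i j hij) with l1 | l1 <;>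
  rcases lt_or_gt_of_ne (hne i k hik) with l2 | l2 <;>
  rcases lt_or_gt_of_ne (hne j k hjk) with l3 | l3
  · exact core i j k hij hik hjk hi hj hk l1 l3
  · exact core i k j hik hij hjk.symm hi hk hj l2 l3
  · linarith
  · exact core k i j hik.symm hjk.symm hij hk hi hj l2 l1
  · exact core j i k hij.symm hjk hik hj hi hk l1 l2
  · linarith
  · exact core j k i hjk hij.symm hik.symm hj hk hi l3 l2
  · exact core k j i hjk.symm hik.symm hij.symm hk hj hi l3 l1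

end SurfFib
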