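import Pool.Agent.SurfFib.Ann

/-! # Patching and global dipoles -/

open Set Filter Topology Metric

namespace SurfFib

variable {S : Type*} [TopologicalSpace S]

theorem push_pull (D : Disc S) (c : S → S → ZMod 2) (τ : ℂ → ZMod 2) {x : S}
    (hx : x ∈ D.ball 2)
    (h : AgreeNear (fun z z' => c (D.φ.symm z) (D.φ.symm z')) (cob τ) (D.φ x)) :
    AgreeNear c (cob (τ ∘ D.φ)) x := by
  obtain ⟨V, hV, hV'⟩ := h
  refine ⟨D.φ ⁻¹' V ∩ D.ball 2, inter_mem (D.continuousAt hx hV)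
    ((D.isOpen_ball le_rfl).mem_nhds hx), ?_⟩
  rintro a ⟨ha1, ha2⟩ b ⟨hb1, hb2⟩
  have := hV' _ ha1 _ hb1
  simp only at this
  rw [D.φ.left_inv ((D.mem_ball_iff le_rfl).1 ha2).1,
    D.φ.left_inv ((D.mem_ball_iff le_rfl).1 hb2).1] at this
  exact this

/-- from oddness to a nontrivial annulus -/
theorem odd_ann (D : Disc S) (c : S → S → ZMod 2) (h : Odd c D.ctr) :
    ∃ s r : ℝ, 0 < s ∧ r < 1 ∧ ∀ s' r', s' ≤ s → r ≤ r' →
      ¬ ∃ τ : ℂ → ZMod 2, ∀ z, s' ≤ ‖z‖ → ‖z‖ ≤ r' →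
        AgreeNear (fun z z' => c (D.φ.symm z) (D.φ.symm z')) (cob τ) z := by
  obtain ⟨K, hKO, hK, hq, hn⟩ := h (D.ball 1)
    ((D.isOpen_ball (by norm_num)).mem_nhds (D.ctr_mem one_pos))
  have hKne : K.Nonempty := by
    rw [nonempty_iff_ne_empty]
    rintro rfl
    exact hn ⟨0, fun z hz => hz.elim⟩
  have hK2 : ∀ x ∈ K, x ∈ D.ball 2 := fun x hx => D.ball_mono (by norm_num) (hKO hx)
  have hcont : ContinuousOn (fun x => ‖D.φ x‖) K := fun x hx =>
    ((D.continuousAt (hK2 x hx)).norm).continuousWithinAt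
  obtain ⟨x₁, hx₁, hmin⟩ := hK.exists_isMinOn hKne hcont
  obtain ⟨x₂, hx₂, hmax⟩ := hK.exists_isMaxOn hKne hcont
  refine ⟨‖D.φ x₁‖, ‖D.φ x₂‖, ?_, ((D.mem_ball_iff (by norm_num)).1 (hKO hx₂)).2, ?_⟩
  · rw [norm_pos_iff]
    intro h0
    apply hq
    have : D.φ.symm (D.φ x₁) = x₁ := D.φ.left_inv ((D.mem_ball_iff (by norm_num)).1 (hKO hx₁)).1
    rw [h0] at this
    rw [Disc.ctr, this]
    exact hx₁
  · rintro s' r' hs' hr' ⟨τ, hτ⟩
    apply hn
    refine ⟨τ ∘ D.φ, fun x hx => push_pull D c τ (hK2 x hx) (hτ _ ?_ ?_)⟩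
    · exact hs'.trans (hmin hx)
    · exact (hmax hx).trans hr'

open Classical in
theorem patch_disc [T2Space S] (D : Disc S) (c c' : S → S → ZMod 2)
    (hc : ∀ z ∈ D.ball 1, z ≠ D.ctr → CocNear c z)
    (hc' : ∀ z ∈ D.ball 1, z ≠ D.ctr → CocNear c' z)
    (h : Odd c D.ctr) (h' : Odd c' D.ctr) :
    ∃ c'' : S → S → ZMod 2, (∀ z ∈ D.ball 1, CocNear c'' z) ∧
      (∀ z ∉ D.ball 1, AgreeNear c'' (c + c') z) := by
  obtain ⟨s₁, r₁, hs₁, hr₁, hn⟩ := odd_ann D c h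
  obtain ⟨s₂, r₂, hs₂, hr₂, hn'⟩ := odd_ann D c' h'
  obtain ⟨s, hs0, hs1, hs2, hs3⟩ : ∃ s : ℝ, 0 < s ∧ s ≤ s₁ ∧ s ≤ s₂ ∧ s ≤ 1 / 4 :=
    ⟨min (min s₁ s₂) (1 / 4), by positivity, (min_le_left _ _).trans (min_le_left _ _),
      (min_le_left _ _).trans (min_le_right _ _), min_le_right _ _⟩
  obtain ⟨r, hr0, hr1', hr2', hr3⟩ : ∃ r : ℝ, r < 1 ∧ r₁ ≤ r ∧ r₂ ≤ r ∧ 1 / 2 ≤ r :=
    ⟨max (max r₁ r₂) (1 / 2), max_lt (max_lt hr₁ hr₂) (by norm_num),
      (le_max_left _ _).trans (le_max_left _ _),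
      (le_max_right _ _).trans (le_max_left _ _), le_max_right _ _⟩
  have hcoc : ∀ d : S → S → ZMod 2, (∀ z ∈ D.ball 1, z ≠ D.ctr → CocNear d z) →
      ∀ z : ℂ, s / 2 ≤ ‖z‖ → ‖z‖ ≤ (1 + r) / 2 →
        CocNear (fun z z' => d (D.φ.symm z) (D.φ.symm z')) z := by
    intro d hd z hz1 hz2
    refine CocNear.comp (c := d) (D.continuousAt_symm (by linarith)) (hd _ ?_ ?_)
    · exact D.symm_mem_ball (by linarith)
    · intro h0
      have h1 := congrArg D.φ h0
      rw [D.right_inv (by linarith), Disc.ctr, D.right_inv (by simp)] at h1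
      rw [h1, norm_zero] at hz1
      linarith
  obtain ⟨τ, hτ⟩ := ann_two _ _ (half_pos hs0) (half_lt_self hs0) (by linarith : r < (1 + r) / 2)
    (by linarith) (hcoc c hc) (hcoc c' hc') (hn s r hs1 hr1') (hn' s r hs2 hr2')
  let σ : S → ZMod 2 := τ ∘ D.φ
  let c'' : S → S → ZMod 2 := fun x y =>
    if x ∈ D.ball (3 / 8) ∧ y ∈ D.ball (3 / 8) then cob σ x y else (c + c') x y
  have hout : ∀ z, z ∉ D.cball (3 / 8) → AgreeNear c'' (c + c') z := by
    intro z hz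
    refine ⟨(D.cball (3 / 8))ᶜ, (D.isClosed_cball (by norm_num)).isOpen_compl.mem_nhds hz, ?_⟩
    intro x hx y hy
    simp only [c'']
    rw [if_neg]
    rintro ⟨h1, -⟩
    exact hx (D.ball_subset_cball h1)
  refine ⟨c'', ?_, ?_⟩
  · intro z hz
    obtain ⟨hzs, hz1⟩ := (D.mem_ball_iff (by norm_num)).1 hz
    by_cases h1 : ‖D.φ z‖ < 3 / 8
    · refine ⟨σ, D.ball (3 / 8), (D.isOpen_ball (by norm_num)).mem_nhds
        ((D.mem_ball_iff (by norm_num)).2 ⟨hzs, h1⟩), ?_⟩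
      intro x hx y hy
      simp only [c'']
      rw [if_pos ⟨hx, hy⟩]
    · have h1' := not_lt.mp h1
      by_cases h2 : ‖D.φ z‖ ≤ r
      · refine ⟨σ, ?_⟩
        obtain ⟨V, hV, hV'⟩ := push_pull D (c + c') τ (D.ball_mono (by norm_num) hz)
          (hτ (D.φ z) (by linarith) h2)
        refine ⟨V, hV, ?_⟩
        intro x hx y hy
        simp only [c'']
        split_ifs
        · rfl
        · exact hV' x hx y hy
      · have h2' := not_le.mp h2
        have hzc : z ∉ D.cball (3 / 8) := by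
          rw [D.mem_cball_iff (by norm_num)]
          rintro ⟨-, h3⟩
          linarith
        have hzne : z ≠ D.ctr := by
          rintro rfl
          rw [Disc.ctr, D.right_inv (by simp), norm_zero] at h2'
          linarith
        exact ((hc z hz hzne).add (hc' z hz hzne)).congr (hout z hzc).symm
  · intro z hz
    apply hout
    intro h1
    exact hz (D.cball_subset_ball (by norm_num) h1)

/-- `S` has small chart discs about every point -/
def HasDiscs (S : Type*) [TopologicalSpace S] : Prop := ∀ p : S, ∃ D : Disc S, D.ctr = p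

theorem HasDiscs.small (hS : HasDiscs S) {p : S} {O : Set S} (hO : O ∈ 𝓝 p) :
    ∃ D : Disc S, D.ctr = p ∧ D.cball 2 ⊆ O := by
  obtain ⟨D, rfl⟩ := hS p
  exact D.exists_scale hO

theorem patch [T2Space S] (hS : HasDiscs S) {q : S} {O : Set S} (hO : O ∈ 𝓝 q)
    (c c' : S → S → ZMod 2) (hc : ∀ z ∈ O, z ≠ q → CocNear c z)
    (hc' : ∀ z ∈ O, z ≠ q → CocNear c' z) (h : Odd c q) (h' : Odd c' q) :
    ∃ c'' : S → S → ZMod 2, (∀ z ∈ O, CocNear c'' z) ∧ (∀ z ∉ O, AgreeNear c'' (c + c') z) := by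
  obtain ⟨D, rfl, hD⟩ := hS.small hO
  have hsub : D.ball 1 ⊆ O := (D.ball_subset_cball.trans (D.cball_mono (by norm_num))).trans hD
  obtain ⟨c'', h1, h2⟩ := patch_disc D c c' (fun z hz => hc z (hsub hz))
    (fun z hz => hc' z (hsub hz)) h h'
  refine ⟨c'', fun z hz => ?_, fun z hz => h2 z (fun h3 => hz (hsub h3))⟩
  by_cases h3 : z ∈ D.ball 1
  · exact h1 z h3
  · have hne : z ≠ D.ctr := by
      rintro rfl
      exact h3 (D.ctr_mem one_pos)
    exact ((hc z hz hne).add (hc' z hz hne)).congr (h2 z h3).symm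

/-- `c` is a dipole with ends `p, q` supported in `N` -/
structure IsDip (N : Set S) (p q : S) (c : S → S → ZMod 2) : Prop where
  coc : ∀ z, z ≠ p → z ≠ q → CocNear c z
  zero : ∀ z, z ∉ N → ZeroNear c z
  left : Odd c p
  right : Odd c q

theorem local_dip [T2Space S] (D : Disc S) {N : Set S} (hD : D.cball 1 ⊆ N) {x y : S}
    (hx : x ∈ D.cball 1) (hy : y ∈ D.cball 1) (hxy : x ≠ y) : ∃ c, IsDip N x y c := by
  obtain ⟨hxs, hx1⟩ := (D.mem_cball_iff (by norm_num)).1 hx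
  obtain ⟨hys, hy1⟩ := (D.mem_cball_iff (by norm_num)).1 hy
  have hne : D.φ x ≠ D.φ y := fun h => hxy (D.φ.injOn hxs hys h)
  refine ⟨dipS D (D.φ x) (D.φ y), ⟨?_, ?_, ?_, ?_⟩⟩
  · intro z h1 h2
    apply dipS_coc D hx1 hy1
    · rwa [D.φ.left_inv hxs]
    · rwa [D.φ.left_inv hys]
  · intro z hz
    apply dipS_zero D hx1 hy1
    intro h
    exact hz (hD (segS_subset D hx1 hy1 h))
  · have := dipS_odd_left D (p := D.φ x) (q := D.φ y) (by linarith) hne
    rwa [D.φ.left_inv hxs] at this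
  · have := dipS_odd_right D (p := D.φ x) (q := D.φ y) (by linarith) hne
    rwa [D.φ.left_inv hys] at this

theorem join_dip [T2Space S] (hS : HasDiscs S) {N : Set S} (hN : IsOpen N) {p q r : S}
    (hq : q ∈ N) (hpq : p ≠ q) (hqr : q ≠ r) (hpr : p ≠ r) {c c' : S → S → ZMod 2}
    (h : IsDip N p q c) (h' : IsDip N q r c') : ∃ c'', IsDip N p r c'' := by
  have hO : N ∩ ({p}ᶜ ∩ {r}ᶜ) ∈ 𝓝 q := inter_mem (hN.mem_nhds hq)
    (inter_mem (isOpen_compl_singleton.mem_nhds hpq.symm) (isOpen_compl_singleton.mem_nhds hqr))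
  obtain ⟨c'', h1, h2⟩ := patch hS hO c c' (fun z hz hzq => h.coc z hz.2.1 hzq)
    (fun z hz hzq => h'.coc z hzq hz.2.2) h.right h'.left
  have hout : ∀ z, z ∉ N → ZeroNear c'' z := fun z hz =>
    (h2 z (fun h3 => hz h3.1)).trans ((h.zero z hz).add (h'.zero z hz))
  refine ⟨c'', ⟨?_, hout, ?_, ?_⟩⟩
  · intro z hzp hzr
    by_cases hz : z ∈ N
    · exact h1 z ⟨hz, hzp, hzr⟩
    · exact (hout z hz).coc
  · exact (h.left.add_coc (h'.coc p hpq hpr)).congr (h2 p (fun h3 => h3.2.1 rfl)).symm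
  · refine Odd.congr (?_ : Odd (c + c') r) (h2 r (fun h3 => h3.2.2 rfl)).symm
    rw [add_comm]
    exact h'.right.add_coc (h.coc r hpr.symm hqr.symm)

/-- any two distinct points of a connected open set are joined by a dipole in this set -/
theorem connect [T2Space S] (hS : HasDiscs S) {N : Set S} (hN : IsOpen N)
    (hNc : IsPreconnected N) {p q : S} (hp : p ∈ N) (hq : q ∈ N) (hpq : p ≠ q) :
    ∃ c, IsDip N p q c := by
  have key : p = q ∨ ∃ c, IsDip N p q c := by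
    refine hNc.induction₂' (fun x y => x = y ∨ ∃ c, IsDip N x y c) ?_ ?_ hp hq
    · intro x hx
      obtain ⟨D, rfl, hD⟩ := hS.small (hN.mem_nhds hx)
      have hD1 : D.cball 1 ⊆ N := (D.cball_mono (by norm_num)).trans hD
      have h1 : D.ball 1 ∈ 𝓝[N] D.ctr := mem_nhdsWithin_of_mem_nhds
        ((D.isOpen_ball (by norm_num)).mem_nhds (D.ctr_mem one_pos))
      filter_upwards [h1] with y hy
      by_cases hxy : D.ctr = y
      · exact ⟨Or.inl hxy, Or.inl hxy.symm⟩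
      · have hc1 : D.ctr ∈ D.cball 1 := D.ball_subset_cball (D.ctr_mem one_pos)
        exact ⟨Or.inr (local_dip D hD1 hc1 (D.ball_subset_cball hy) hxy),
          Or.inr (local_dip D hD1 (D.ball_subset_cball hy) hc1 (Ne.symm hxy))⟩
    · intro x y z hx hy hz h1 h2
      by_cases hxz : x = z
      · exact Or.inl hxz
      rcases h1 with rfl | ⟨c, hc⟩
      · exact h2
      rcases h2 with rfl | ⟨c', hc'⟩
      · exact Or.inr ⟨c, hc⟩
      by_cases hxy : x = y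
      · subst hxy
        exact Or.inr ⟨c', hc'⟩
      by_cases hyz : y = z
      · subst hyz
        exact Or.inr ⟨c, hc⟩
      exact Or.inr (join_dip hS hN hy hxy hyz hxz hc hc')
  exact key.resolve_left hpq

end SurfFib
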